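import Pool.Agent.H610R2.Owf.Base
import Pool.Agent.H620R2.Gauge2.V6

/-!
# Task A: asymptotics
-/

namespace Pool.Agent.H610R2.Owf

open Pool.Agent.NPC Pool.Agent.H620R2.Gauge Finset H568R2

theorem asym_freq (Q : Polynomial ℕ) (f : ℕ → ℝ) (hf : Cond f) :
    ∃ᶠ n : ℕ in Filter.atTop, ∃ N : ℕ, 2 ^ (Q.eval n + 1) ≤ N ∧ f N ≤ 2 ^ Real.sqrt n := by
  rw [Filter.frequently_atTop]
  intro a
  obtain ⟨n, N, h1, h2, h3⟩ := V69_choose Q f hf (fun n => a ≤ n) (Filter.eventually_ge_atTop a)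
  exact ⟨n, h1, N, h2, h3⟩

theorem asym_ev (Q : Polynomial ℕ) (f : ℕ → ℝ) (hf : CondS f) :
    ∀ᶠ n : ℕ in Filter.atTop, ∃ N : ℕ, 2 ^ (Q.eval n + 1) ≤ N ∧ f N ≤ 2 ^ Real.sqrt n := by
  set Q' : Polynomial ℕ := Q + Polynomial.X with hQ'
  have hQ'ev : ∀ n, Q'.eval n = Q.eval n + n := by intro n; simp [hQ']
  set D : ℕ := Q'.natDegree + 1 with hD
  set ε : ℝ := 1 / (2 * (D : ℝ)) with hε
  have hD0 : (0 : ℝ) < D := by rw [hD]; positivity
  have hε0 : 0 < ε := by positivity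
  have ht : Filter.Tendsto (fun n : ℕ => 2 ^ (Q'.eval n + 1)) Filter.atTop Filter.atTop := by
    refine Filter.tendsto_atTop_mono (fun n => ?_) Filter.tendsto_id
    have h1 : n < 2 ^ n := Nat.lt_two_pow_self
    have h2 : 2 ^ n ≤ 2 ^ (Q'.eval n + 1) :=
      Nat.pow_le_pow_right (by norm_num) (by rw [hQ'ev]; omega)
    show n ≤ _
    omega
  filter_upwards [ht.eventually (hf ε hε0), Filter.eventually_ge_atTop 1,
    Filter.eventually_ge_atTop (Q'.eval 1 + 1)] with n h1 h2 h3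
  obtain ⟨N, hN1, hN2⟩ := h1
  refine ⟨N, ?_, ?_⟩
  · refine le_trans ?_ hN1
    exact Nat.pow_le_pow_right (by norm_num) (by rw [hQ'ev]; omega)
  · refine hN2.trans (Real.rpow_le_rpow_of_exponent_le (by norm_num) ?_)
    have h4 : Real.logb 2 ((2 ^ (Q'.eval n + 1) : ℕ) : ℝ) = ((Q'.eval n + 1 : ℕ) : ℝ) := by
      push_cast
      rw [Real.logb_pow, Real.logb_self_eq_one (by norm_num), mul_one]
      push_cast
      rfl
    rw [h4]
    have h5 : Q'.eval n + 1 ≤ n ^ D := by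
      have h6 := Y_poly_le Q' n h2
      have h7 : 1 ≤ n ^ Q'.natDegree := Nat.one_le_pow _ _ h2
      calc Q'.eval n + 1 ≤ Q'.eval 1 * n ^ Q'.natDegree + n ^ Q'.natDegree := by omega
        _ = (Q'.eval 1 + 1) * n ^ Q'.natDegree := by ring
        _ ≤ n * n ^ Q'.natDegree := Nat.mul_le_mul_right _ h3
        _ = n ^ D := by rw [hD, pow_succ]; ring
    have hn0 : (0 : ℝ) ≤ n := Nat.cast_nonneg n
    calc (((Q'.eval n + 1 : ℕ) : ℝ)) ^ ε ≤ (((n ^ D : ℕ) : ℝ)) ^ ε :=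
          Real.rpow_le_rpow (Nat.cast_nonneg _) (by exact_mod_cast h5) hε0.le
      _ = (n : ℝ) ^ (1 / 2 : ℝ) := by
          push_cast
          rw [← Real.rpow_natCast, ← Real.rpow_mul hn0]
          congr 1
          rw [hε]; field_simp
      _ = Real.sqrt n := by rw [Real.sqrt_eq_rpow]

theorem asym_bd (P : Polynomial ℕ) : ∀ᶠ n : ℕ in Filter.atTop, ∃ t : ℕ, ∀ g : ℝ,
    g ≤ 2 ^ Real.sqrt n →
    (2 : ℝ) ^ P.eval n * (t * P.eval n / 2 ^ n) ^ t * 2 ^ g ≤ (1 / 2) ^ n := by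
  filter_upwards [V69_ev (P + Polynomial.X) 1] with n hn
  obtain ⟨h1, -, h3, h4⟩ := hn
  have h1' : 64 * (P.eval n + n + 1) ≤ 2 ^ (n / 2) := by simpa using h1
  set u : ℕ := n / 2 with hu
  have h2u : 2 * u ≤ n := Nat.mul_div_le n 2
  refine ⟨2 ^ u, fun g hg => ?_⟩
  have hpp : 2 ^ u * 2 ^ u ≤ 2 ^ n := by
    rw [← pow_add]
    exact Nat.pow_le_pow_right (by norm_num) (by omega)
  have hT : ((64 : ℝ) * ((P.eval n : ℕ) + n + 1)) ≤ 2 ^ u := by exact_mod_cast h1'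
  set T : ℝ := (2 : ℝ) ^ u with hTd
  set p : ℝ := ((P.eval n : ℕ) : ℝ) with hp
  have hp0 : 0 ≤ p := Nat.cast_nonneg _
  have hn0 : (0 : ℝ) ≤ n := Nat.cast_nonneg _
  have hT0 : 0 < T := by positivity
  have hppR : T * T ≤ 2 ^ n := by
    rw [hTd]
    exact_mod_cast hpp
  have hbase : (((2 ^ u : ℕ) : ℝ) * p / 2 ^ n) ≤ 1 / 2 := by
    push_cast
    rw [div_le_iff₀ (by positivity)]
    have : T * p ≤ T * (T / 2) := by
      apply mul_le_mul_of_nonneg_left _ hT0.le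
      linarith
    calc T * p ≤ T * (T / 2) := this
      _ = 1 / 2 * (T * T) := by ring
      _ ≤ 1 / 2 * 2 ^ n := by linarith
  have hpow : (((2 ^ u : ℕ) : ℝ) * p / 2 ^ n) ^ (2 ^ u) ≤ (2 : ℝ) ^ (-T) := by
    calc (((2 ^ u : ℕ) : ℝ) * p / 2 ^ n) ^ (2 ^ u) ≤ (1 / 2 : ℝ) ^ (2 ^ u) :=
          pow_le_pow_left₀ (by positivity) hbase _
      _ = (2 : ℝ) ^ (-T) := by
          rw [Real.rpow_neg (by norm_num), one_div, inv_pow, ← Real.rpow_natCast]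
          push_cast
          rfl
  have hg2 : g ≤ T / 16 := by
    have h5 : g ≤ 2 ^ ((u : ℝ) - 4) :=
      hg.trans (Real.rpow_le_rpow_of_exponent_le (by norm_num) (by linarith))
    rw [Real.rpow_sub (by norm_num), Real.rpow_natCast] at h5
    have h6 : (2 : ℝ) ^ (4 : ℝ) = 16 := by norm_num
    rw [h6] at h5
    exact h5
  have h7 : (2 : ℝ) ^ P.eval n = (2 : ℝ) ^ p := by rw [hp, Real.rpow_natCast]
  have h8 : ((1 : ℝ) / 2) ^ n = (2 : ℝ) ^ (-(n : ℝ)) := by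
    rw [Real.rpow_neg (by norm_num), one_div, inv_pow, Real.rpow_natCast]
  calc (2 : ℝ) ^ P.eval n * (((2 ^ u : ℕ) : ℝ) * p / 2 ^ n) ^ (2 ^ u) * 2 ^ g
      ≤ (2 : ℝ) ^ p * (2 : ℝ) ^ (-T) * 2 ^ g := by
        rw [h7]
        gcongr
    _ = (2 : ℝ) ^ (p + -T + g) := by
        rw [Real.rpow_add (by norm_num), Real.rpow_add (by norm_num)]
    _ ≤ (2 : ℝ) ^ (-(n : ℝ)) := by
        apply Real.rpow_le_rpow_of_exponent_le (by norm_num)
        linarith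
    _ = (1 / 2) ^ n := h8.symm

end Pool.Agent.H610R2.Owf
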