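import Pool.Agent.H610R2.Owf.Defs
import Pool.Agent.H620R2.Gauge2.Base

/-!
# The objects of the proof
-/

namespace Pool.Agent.H610R2.Owf

open Pool.Agent.NPC Pool.Agent.H620R2.Gauge Finset H568R2

/-- The condition on the gauge for ordinary one-way functions. -/
def CondS (f : ℕ → ℝ) : Prop :=
  ∀ ε : ℝ, 0 < ε → ∀ᶠ N : ℕ in Filter.atTop, ∃ N' ≥ N, f N' ≤ 2 ^ (Real.logb 2 N) ^ ε

/-- the random function -/
def Fr (A : Oracle) (x : List Bool) : List Bool :=
  (List.range x.length).map (fun i => A (x ++ List.replicate (i + 1) true))

/-- the input of the inverter -/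
def inI (n : ℕ) (y h : List Bool) : List Bool :=
  pairBits (pairBits (List.replicate n true) y) h

/-- a bound for the length of the input of the inverter -/
def lenI (n m : ℕ) : ℕ := 6 * n + m + 3

open Classical in
/-- The event: with some additional string of length at most `m`, the algorithm `M` inverts the
random function with probability at least `1 / q` for random `x` of length `n`. -/
def EvI (M : Alg) (m q n N : ℕ) (a : Fin N → Bool) : Prop :=
  ∃ h : List Bool, h.length ≤ m ∧ 2 ^ n ≤ q * (univ.filter (fun x : Fin n → Bool =>
    ∃ z, M.out (orc N a) (inI n (Fr (orc N a) (List.ofFn x)) h) = some z ∧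
      Fr (orc N a) z = Fr (orc N a) (List.ofFn x))).card

end Pool.Agent.H610R2.Owf
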