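import Pool.Agent.H610R2.Owf.Base
import Pool.Agent.H620R2.Gauge.C

/-!
# Coding on chosen lengths only
-/

namespace Pool.Agent.H610R2.Owf

open Pool.Agent.NPC Pool.Agent.H620R2.Gauge Finset H568R2

open CC in
open Classical in
theorem exists_coding_io (K : ℕ) : ∃ R : ℕ → Polynomial ℕ,
    (∀ e n, (n + e + 1) ^ K ≤ (R e).eval n) ∧ ∀ W : ℕ → ℕ → Prop, ∃ Φ : Oracle → Oracle,
      (∀ B y, (∀ e x, W e x.length → y ≠ code R e x) → Φ B y = B y) ∧
      ∀ B L, IsPSPACE (Φ B) L → ∃ e, ∀ x : List Bool, W e x.length →
        (x ∈ L ↔ Φ B (code R e x) = true) := by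
  obtain ⟨g, hg⟩ := exists_enum
  choose b hb using fun e : ℕ => act_length (g e).1 (g e).2
  set R : ℕ → Polynomial ℕ := fun e => b e + (Polynomial.X + Polynomial.C (e + 1)) ^ K with hR
  have hRe : ∀ e n, (R e).eval n = (b e).eval n + (n + (e + 1)) ^ K := by
    intro e n
    rw [hR]
    simp only [Polynomial.eval_add, Polynomial.eval_pow, Polynomial.eval_X, Polynomial.eval_C]
  refine ⟨R, ?_, fun W => ?_⟩
  · intro e n
    rw [hRe, add_assoc n e 1]
    exact Nat.le_add_left _ _
  set V : Oracle → ℕ → Oracle → List Bool → Prop := fun B e A x =>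
    if W e x.length then Acc (g e).1 (cut ((b e).eval x.length) A) x
    else B (code R e x) = true with hV
  have hloc : ∀ B e A A' x, (∀ z : List Bool, z.length < (code R e x).length → A z = A' z) →
      (V B e A x ↔ V B e A' x) := by
    intro B e A A' x h
    have hcut : cut ((b e).eval x.length) A = cut ((b e).eval x.length) A' := by
      funext z
      unfold cut
      split_ifs with hz
      · apply h
        have h1 := lt_length_code R e x
        have h2 := hRe e x.length
        omega
      · rfl
    simp only [hV, hcut]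
  refine ⟨fun B => Phi R (V B) B, ?_, ?_⟩
  · intro B y h
    by_cases hy : ∃ e x, y = code R e x
    · obtain ⟨e, x, rfl⟩ := hy
      have hW : ¬ W e x.length := fun hw => h e x hw rfl
      have h1 := Phi_code R (V B) B (hloc B) e x
      rw [hV] at h1
      simp only [if_neg hW] at h1
      rw [hV]
      exact Bool.eq_iff_iff.2 h1
    · push Not at hy
      exact Phi_not R (V B) B y hy
  · rintro B L ⟨M, p, hM⟩
    obtain ⟨e, he⟩ := hg (M, p)
    refine ⟨e, fun x hW => ?_⟩
    change x ∈ L ↔ Phi R (V B) B (code R e x) = true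
    rw [Phi_code R (V B) B (hloc B) e x]
    have hVe : V B e (Phi R (V B) B) x ↔
        Acc (g e).1 (cut ((b e).eval x.length) (Phi R (V B) B)) x := by
      rw [hV]
      simp only [if_pos hW]
    rw [hVe]
    have hbe := hb e
    rw [he] at hbe ⊢
    obtain ⟨hM1, s, z, hs, hz, hL⟩ := hM x
    have hcong : ∀ s, M.Reach (cut ((b e).eval x.length) (Phi R (V B) B)) x s ↔
        M.Reach (Phi R (V B) B) x s := by
      refine reach_congr (fun s => s.length ≤ p.eval x.length) hM1 ?_
      intro s q h1 h2
      have h3 := hbe x s h1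
      rw [h2, List.length_cons] at h3
      unfold cut
      rw [if_pos (by omega)]
    constructor
    · intro hx
      refine ⟨s, (hcong s).2 hs, ?_⟩
      rw [hz, hL.1 hx]
    · rintro ⟨t, ht, ht2⟩
      have hst := reach_unique hs ((hcong t).1 ht) ⟨_, hz⟩ ⟨_, ht2⟩
      rw [hst, ht2] at hz
      simp only [List.cons.injEq, true_and] at hz
      exact hL.2 hz.symm

end Pool.Agent.H610R2.Owf
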