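import Pool.Agent.H620R2.Gauge2.Defs

/-!
# One-way functions relative to an oracle

(Oracles, polynomial-time oracle algorithms and null sets of a gauge are defined in
`Pool.Agent.H620R2.Gauge.Defs`.)
-/

namespace Pool.Agent.H610R2.Owf

open Pool.Agent.NPC Pool.Agent.H620R2.Gauge

/-- The probability that `G`, on input `⟨⟨1^n, F x⟩, w⟩`, outputs a string with the same value under
`F` as `x`, where `x` and `w` are independent uniformly random strings of lengths `n` and `m`. -/
noncomputable def invPr (F G : List Bool → List Bool) (n m : ℕ) : ℝ :=
  (Nat.card {q : (Fin n → Bool) × (Fin m → Bool) //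
    F (G (pairBits (pairBits (List.replicate n true) (F (List.ofFn q.1))) (List.ofFn q.2))) =
      F (List.ofFn q.1)} : ℝ) / 2 ^ (n + m)

/-- `F` is a one-way function relative to `A`: it is computable in polynomial time relative to `A`,
and for every randomized polynomial-time algorithm `G` (using `m(n)` random bits) relative to `A`
and every polynomial `q`, for all sufficiently large `n` the probability that `G` inverts `F` on a
random string of length `n` is less than `1 / q(n)`. -/
def IsOWF (A : Oracle) (F : List Bool → List Bool) : Prop :=
  IsFP A F ∧ ∀ G, IsFP A G → ∀ m q : Polynomial ℕ,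
    ∀ᶠ n : ℕ in Filter.atTop, invPr F G n (m.eval n) * q.eval n < 1

/-- `F` is an infinitely often one-way function relative to `A`: as before, but the probability
need be less than `1 / q(n)` only for infinitely many `n` (depending on `G`, `m` and `q`). -/
def IsIoOWF (A : Oracle) (F : List Bool → List Bool) : Prop :=
  IsFP A F ∧ ∀ G, IsFP A G → ∀ m q : Polynomial ℕ,
    ∃ᶠ n : ℕ in Filter.atTop, invPr F G n (m.eval n) * q.eval n < 1

/-- The probability that `G`, on input `⟨⟨1^n, F x⟩, h⟩`, outputs a string with the same value under
`F` as `x`, where `x` is a uniformly random string of length `n`. -/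
noncomputable def advPr (F G : List Bool → List Bool) (n : ℕ) (h : List Bool) : ℝ :=
  (Nat.card {x : Fin n → Bool //
    F (G (pairBits (pairBits (List.replicate n true) (F (List.ofFn x))) h)) =
      F (List.ofFn x)} : ℝ) / 2 ^ n

/-- Relative to `A`, some polynomial-time algorithm with polynomial advice `h` inverts `F` with
probability at least `1 / q(n)` for the lengths `n` in `T`. -/
def InvOn (A : Oracle) (F : List Bool → List Bool) (T : Set ℕ) : Prop :=
  ∃ G, IsFP A G ∧ ∃ (h : ℕ → List Bool) (m q : Polynomial ℕ), (∀ n, (h n).length ≤ m.eval n) ∧
    ∀ n ∈ T, 1 ≤ advPr F G n (h n) * q.eval n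

/-- Relative to `A`, some deterministic polynomial-time algorithm inverts `F` on all the strings
whose length is in `T`. -/
def DetInvOn (A : Oracle) (F : List Bool → List Bool) (T : Set ℕ) : Prop :=
  ∃ G, IsFP A G ∧ ∀ n ∈ T, ∀ x : List Bool, x.length = n →
    F (G (pairBits (List.replicate n true) (F x))) = F x

end Pool.Agent.H610R2.Owf
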