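import Mathlib

/-! Inverting a random function: the moments of the number of inverted points. -/

namespace Pool.Agent.H610R2.Owf

open Finset Classical

section

variable {X Y : Type}

/-- `a` on `K`, `b` elsewhere -/
noncomputable def mx (K : Finset X) (a b : X → Y) : X → Y := fun x => if x ∈ K then a x else b x

theorem mx_mem {K : Finset X} {a b : X → Y} {x : X} (h : x ∈ K) : mx K a b x = a x := by
  simp [mx, h]

theorem mx_not {K : Finset X} {a b : X → Y} {x : X} (h : x ∉ K) : mx K a b x = b x := by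
  simp [mx, h]

variable [Fintype X] [Fintype Y]

theorem strong_markov (K : Finset X) (a : X → Y) (κ : (X → Y) → Finset X) (hK : ∀ c, K ⊆ κ c)
    (hκ : ∀ c c', (∀ x ∈ κ c, c x = c' x) → κ c' = κ c) (f : (X → Y) → ℝ) :
    ∑ b : X → Y, ∑ b' : X → Y, f (mx (κ (mx K a b)) (mx K a b) b') =
      Fintype.card (X → Y) * ∑ b : X → Y, f (mx K a b) := by
  set σ : (X → Y) × (X → Y) → (X → Y) × (X → Y) := fun q =>
    (mx (κ (mx K a q.1)) q.1 q.2, mx (κ (mx K a q.1)) q.2 q.1) with hσ
  have h1 : ∀ q : (X → Y) × (X → Y), mx K a (σ q).1 = mx (κ (mx K a q.1)) (mx K a q.1) q.2 := by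
    intro q
    funext x
    simp only [hσ]
    by_cases hx : x ∈ K
    · rw [mx_mem hx, mx_mem (hK _ hx), mx_mem hx]
    · rw [mx_not hx]
      by_cases hx2 : x ∈ κ (mx K a q.1)
      · rw [mx_mem hx2, mx_mem hx2, mx_not hx]
      · rw [mx_not hx2, mx_not hx2]
  have h2 : ∀ q : (X → Y) × (X → Y), κ (mx K a (σ q).1) = κ (mx K a q.1) := by
    intro q
    rw [h1 q]
    apply hκ
    intro x hx
    rw [mx_mem hx]
  have hinv : Function.Involutive σ := by
    intro q
    have h3 := h2 q
    have h4 : σ (σ q) = (mx (κ (mx K a (σ q).1)) (σ q).1 (σ q).2,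
      mx (κ (mx K a (σ q).1)) (σ q).2 (σ q).1) := rfl
    rw [h4, h3]
    have h5 : (σ q).1 = mx (κ (mx K a q.1)) q.1 q.2 := rfl
    have h6 : (σ q).2 = mx (κ (mx K a q.1)) q.2 q.1 := rfl
    rw [h5, h6]
    apply Prod.ext
    · funext x
      show mx _ _ _ x = q.1 x
      by_cases hx : x ∈ κ (mx K a q.1)
      · rw [mx_mem hx, mx_mem hx]
      · rw [mx_not hx, mx_not hx]
    · funext x
      show mx _ _ _ x = q.2 x
      by_cases hx : x ∈ κ (mx K a q.1)
      · rw [mx_mem hx, mx_mem hx]
      · rw [mx_not hx, mx_not hx]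
  have h7 : ∑ q : (X → Y) × (X → Y), f (mx K a (σ q).1) =
      ∑ q : (X → Y) × (X → Y), f (mx K a q.1) :=
    Equiv.sum_comp (hinv.toPerm σ) (fun q : (X → Y) × (X → Y) => f (mx K a q.1))
  rw [← Fintype.sum_prod_type' (f := fun b b' => f (mx (κ (mx K a b)) (mx K a b) b'))]
  have h8 : ∑ q : (X → Y) × (X → Y), f (mx (κ (mx K a q.1)) (mx K a q.1) q.2) =
      ∑ q : (X → Y) × (X → Y), f (mx K a (σ q).1) :=
    Finset.sum_congr rfl fun q _ => by rw [h1 q]
  rw [h8, h7, Fintype.sum_prod_type]
  simp only [Finset.sum_const, nsmul_eq_mul, Finset.card_univ]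
  rw [Finset.mul_sum]

theorem resample (x : X) (g : (X → Y) → ℝ) :
    ∑ b : X → Y, ∑ y : Y, g (Function.update b x y) = Fintype.card Y * ∑ b : X → Y, g b := by
  set σ : (X → Y) × Y → (X → Y) × Y := fun q => (Function.update q.1 x q.2, q.1 x) with hσ
  have hinv : Function.Involutive σ := by
    intro q
    simp [hσ]
  have h7 : ∑ q : (X → Y) × Y, g (σ q).1 = ∑ q : (X → Y) × Y, g q.1 :=
    Equiv.sum_comp (hinv.toPerm σ) (fun q : (X → Y) × Y => g q.1)
  rw [← Fintype.sum_prod_type' (f := fun b y => g (Function.update b x y))]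
  refine (h7 : ∑ q : (X → Y) × Y, g (Function.update q.1 x q.2) = _).trans ?_
  rw [Fintype.sum_prod_type]
  simp only [Finset.sum_const, nsmul_eq_mul, Finset.card_univ]
  rw [Finset.mul_sum]

/-- the point `x` is inverted -/
def Suc (Q : Y → (X → Y) → Finset X) (c : X → Y) (x : X) : Prop :=
  ∃ x' ∈ Q (c x) c, c x' = c x

variable (Q : Y → (X → Y) → Finset X) (p : ℕ) (hp : ∀ y c, (Q y c).card ≤ p)
  (hQ : ∀ y c c', (∀ x ∈ Q y c, c x = c' x) → Q y c' = Q y c)

include hQ in
theorem mem_update {y : Y} {c : X → Y} {x : X} (z : Y) :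
    x ∈ Q y (Function.update c x z) ↔ x ∈ Q y c := by
  constructor
  · intro h
    by_contra h2
    have h3 := hQ y c (Function.update c x z) (by
      intro x' hx'
      rw [Function.update_of_ne]
      rintro rfl
      exact h2 hx')
    rw [h3] at h
    exact h2 h
  · intro h
    by_contra h2
    have h3 := hQ y (Function.update c x z) c (by
      intro x' hx'
      rw [Function.update_of_ne]
      rintro rfl
      exact h2 hx')
    rw [h3] at h
    exact h2 h

theorem mx_update {K : Finset X} {a b : X → Y} {x : X} (hx : x ∉ K) (y : Y) :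
    mx K a (Function.update b x y) = Function.update (mx K a b) x y := by
  funext x'
  by_cases h : x' = x
  · subst h
    rw [mx_not hx, Function.update_self, Function.update_self]
  · rw [Function.update_of_ne h]
    by_cases h2 : x' ∈ K
    · rw [mx_mem h2, mx_mem h2]
    · rw [mx_not h2, mx_not h2, Function.update_of_ne h]

/-- the indicator -/
noncomputable def ind (P : Prop) : ℝ := if P then 1 else 0

theorem ind_nonneg (P : Prop) : 0 ≤ ind P := by unfold ind; split_ifs <;> norm_num

theorem ind_le_one (P : Prop) : ind P ≤ 1 := by unfold ind; split_ifs <;> norm_num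

theorem ind_mono {P R : Prop} (h : P → R) : ind P ≤ ind R := by
  unfold ind
  by_cases hP : P
  · rw [if_pos hP, if_pos (h hP)]
  · rw [if_neg hP]; split_ifs <;> norm_num

theorem ind_or {P R : Prop} : ind (P ∨ R) ≤ ind P + ind R := by
  unfold ind
  by_cases hP : P <;> by_cases hR : R <;> simp [hP, hR]

theorem ind_congr {P R : Prop} (h : P ↔ R) : ind P = ind R := by
  unfold ind; simp [h]

theorem sum_ind_mem (S : Finset X) : ∑ x : X, ind (x ∈ S) = S.card := by
  have h : ∀ x : X, ind (x ∈ S) = if x ∈ S then (1 : ℝ) else 0 := by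
    intro x
    by_cases hx : x ∈ S <;> simp [ind, hx]
  rw [Finset.sum_congr rfl fun x _ => h x]
  simp

theorem ind_exists_le (S : Finset X) (P : X → Prop) :
    ind (∃ x ∈ S, P x) ≤ ∑ x ∈ S, ind (P x) := by
  by_cases h : ∃ x ∈ S, P x
  · obtain ⟨x, hx, hP⟩ := h
    refine le_trans ?_ (Finset.single_le_sum (f := fun x => ind (P x))
      (fun x _ => ind_nonneg _) hx)
    unfold ind
    rw [if_pos ⟨x, hx, hP⟩, if_pos hP]
  · rw [ind, if_neg h]
    exact Finset.sum_nonneg fun x _ => ind_nonneg _

include hp hQ in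
/-- a value hit by accident -/
theorem step_two (hY : 0 < Fintype.card Y) (K : Finset X) (a : X → Y) :
    ∑ y : Y, ∑ b : X → Y, ind (∃ x' ∈ Q y (mx K a b), mx K a b x' = y) ≤
      Fintype.card (X → Y) * (K.card + p) := by
  have hY' : (0 : ℝ) < Fintype.card Y := by exact_mod_cast hY
  have h1 : ∀ (y : Y) (b : X → Y), ind (∃ x' ∈ Q y (mx K a b), mx K a b x' = y) ≤
      ∑ x' ∈ K, ind (a x' = y) +
      ∑ x' ∈ univ \ K, ind (x' ∈ Q y (mx K a b)) * ind (mx K a b x' = y) := by
    intro y b
    refine (ind_exists_le _ _).trans ?_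
    have h2 : ∑ x' ∈ Q y (mx K a b), ind (mx K a b x' = y) =
        ∑ x' : X, ind (x' ∈ Q y (mx K a b)) * ind (mx K a b x' = y) := by
      rw [← Finset.sum_filter_add_sum_filter_not univ (fun x' => x' ∈ Q y (mx K a b))]
      have h3 : ∑ x' ∈ univ.filter (fun x' => x' ∉ Q y (mx K a b)),
          ind (x' ∈ Q y (mx K a b)) * ind (mx K a b x' = y) = 0 := by
        apply Finset.sum_eq_zero
        intro x' hx'
        rw [Finset.mem_filter] at hx'
        rw [ind, if_neg hx'.2, zero_mul]
      rw [h3, add_zero]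
      have h4 : univ.filter (fun x' => x' ∈ Q y (mx K a b)) = Q y (mx K a b) := by
        ext; simp
      rw [h4]
      apply Finset.sum_congr rfl
      intro x' hx'
      rw [ind, ind, if_pos hx', one_mul]
    rw [h2, ← Finset.sum_sdiff (Finset.subset_univ K), add_comm]
    apply add_le_add_left
    apply Finset.sum_le_sum
    intro x' hx'
    rw [mx_mem hx']
    exact mul_le_of_le_one_left (ind_nonneg _) (ind_le_one _)
  have h5 : ∑ y : Y, ∑ _b : X → Y, ∑ x' ∈ K, ind (a x' = y) =
      Fintype.card (X → Y) * K.card := by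
    have h6 : ∀ y : Y, ∑ _b : X → Y, ∑ x' ∈ K, ind (a x' = y) =
        Fintype.card (X → Y) * ∑ x' ∈ K, ind (a x' = y) := by
      intro y
      rw [Finset.sum_const, nsmul_eq_mul, Finset.card_univ]
    rw [Finset.sum_congr rfl fun y _ => h6 y, ← Finset.mul_sum, Finset.sum_comm]
    congr 1
    have h7 : ∀ x' : X, ∑ y : Y, ind (a x' = y) = 1 := by
      intro x'
      unfold ind
      simp
    rw [Finset.sum_congr rfl fun x' _ => h7 x']
    simp
  have h8 : Fintype.card Y * (∑ y : Y, ∑ b : X → Y,
      ∑ x' ∈ univ \ K, ind (x' ∈ Q y (mx K a b)) * ind (mx K a b x' = y)) ≤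
      Fintype.card Y * (Fintype.card (X → Y) * p) := by
    have h9 : ∀ (y : Y) (x' : X), x' ∉ K →
        Fintype.card Y * ∑ b : X → Y, ind (x' ∈ Q y (mx K a b)) * ind (mx K a b x' = y) =
        ∑ b : X → Y, ind (x' ∈ Q y (mx K a b)) := by
      intro y x' hx'
      rw [← resample x' (fun b : X → Y => ind (x' ∈ Q y (mx K a b)) * ind (mx K a b x' = y))]
      apply Finset.sum_congr rfl
      intro b _
      have h10 : ∀ z : Y, ind (x' ∈ Q y (mx K a (Function.update b x' z))) *
          ind (mx K a (Function.update b x' z) x' = y) =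
          ind (x' ∈ Q y (mx K a b)) * (if z = y then 1 else 0) := by
        intro z
        rw [mx_update hx', Function.update_self, ind_congr (mem_update Q hQ z)]
        rfl
      rw [Finset.sum_congr rfl fun z _ => h10 z, ← Finset.mul_sum]
      simp
    have h11 : Fintype.card Y * (∑ y : Y, ∑ b : X → Y,
        ∑ x' ∈ univ \ K, ind (x' ∈ Q y (mx K a b)) * ind (mx K a b x' = y)) =
        ∑ y : Y, ∑ x' ∈ univ \ K, ∑ b : X → Y, ind (x' ∈ Q y (mx K a b)) := by
      rw [Finset.mul_sum]
      apply Finset.sum_congr rfl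
      intro y _
      rw [Finset.sum_comm, Finset.mul_sum]
      apply Finset.sum_congr rfl
      intro x' hx'
      exact h9 y x' (Finset.mem_sdiff.1 hx').2
    rw [h11]
    have h12 : ∀ y : Y, ∑ x' ∈ univ \ K, ∑ b : X → Y, ind (x' ∈ Q y (mx K a b)) ≤
        Fintype.card (X → Y) * p := by
      intro y
      rw [Finset.sum_comm]
      calc ∑ b : X → Y, ∑ x' ∈ univ \ K, ind (x' ∈ Q y (mx K a b)) ≤
          ∑ _b : X → Y, (p : ℝ) := by
            apply Finset.sum_le_sum
            intro b _
            calc ∑ x' ∈ univ \ K, ind (x' ∈ Q y (mx K a b)) ≤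
                ∑ x' : X, ind (x' ∈ Q y (mx K a b)) :=
                  Finset.sum_le_sum_of_subset_of_nonneg (Finset.subset_univ _)
                    (fun _ _ _ => ind_nonneg _)
              _ = ((Q y (mx K a b)).card : ℝ) := sum_ind_mem _
              _ ≤ p := by exact_mod_cast hp y _
        _ = Fintype.card (X → Y) * p := by
            rw [Finset.sum_const, nsmul_eq_mul, Finset.card_univ]
    refine (Finset.sum_le_sum fun y _ => h12 y).trans (le_of_eq ?_)
    rw [Finset.sum_const, nsmul_eq_mul, Finset.card_univ]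
  have h13 := le_of_mul_le_mul_left h8 hY'
  calc ∑ y : Y, ∑ b : X → Y, ind (∃ x' ∈ Q y (mx K a b), mx K a b x' = y) ≤
      ∑ y : Y, ∑ b : X → Y, (∑ x' ∈ K, ind (a x' = y) +
      ∑ x' ∈ univ \ K, ind (x' ∈ Q y (mx K a b)) * ind (mx K a b x' = y)) :=
        Finset.sum_le_sum fun y _ => Finset.sum_le_sum fun b _ => h1 y b
    _ = ∑ y : Y, ∑ _b : X → Y, ∑ x' ∈ K, ind (a x' = y) + ∑ y : Y, ∑ b : X → Y,
      ∑ x' ∈ univ \ K, ind (x' ∈ Q y (mx K a b)) * ind (mx K a b x' = y) := by
        rw [← Finset.sum_add_distrib]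
        apply Finset.sum_congr rfl
        intro y _
        rw [← Finset.sum_add_distrib]
    _ ≤ Fintype.card (X → Y) * (K.card + p) := by
        rw [h5]
        linarith

include hp hQ in
theorem step_one (hY : 0 < Fintype.card Y) (hXY : Fintype.card X = Fintype.card Y)
    (K : Finset X) (a : X → Y) :
    ∑ x : X, ∑ b : X → Y, ind (Suc Q (mx K a b) x) ≤
      Fintype.card (X → Y) * (2 * (K.card + p)) := by
  have hY' : (0 : ℝ) < Fintype.card Y := by exact_mod_cast hY
  have hXYr : (Fintype.card X : ℝ) = Fintype.card Y := by exact_mod_cast hXY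
  have h1 : ∀ x : X, x ∉ K → Fintype.card Y * ∑ b : X → Y, ind (Suc Q (mx K a b) x) ≤
      ∑ b : X → Y, ∑ y : Y, (ind (x ∈ Q y (mx K a b)) +
        ind (∃ x' ∈ Q y (mx K a b), mx K a b x' = y)) := by
    intro x hx
    rw [← resample x (fun b : X → Y => ind (Suc Q (mx K a b) x))]
    apply Finset.sum_le_sum
    intro b _
    apply Finset.sum_le_sum
    intro y _
    refine le_trans (ind_mono ?_) ind_or
    rw [mx_update hx]
    unfold Suc
    rw [Function.update_self]
    rintro ⟨x', hx', he⟩
    by_cases hxQ : x ∈ Q y (mx K a b)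
    · exact Or.inl hxQ
    · right
      have h3 := hQ y (mx K a b) (Function.update (mx K a b) x y) (by
        intro x'' hx''
        rw [Function.update_of_ne]
        rintro rfl
        exact hxQ hx'')
      rw [h3] at hx'
      have hne : x' ≠ x := by
        rintro rfl
        exact hxQ hx'
      rw [Function.update_of_ne hne] at he
      exact ⟨x', hx', he⟩
  have h2 : Fintype.card Y * ∑ x ∈ univ \ K, ∑ b : X → Y, ind (Suc Q (mx K a b) x) ≤
      Fintype.card Y * (Fintype.card (X → Y) * (K.card + 2 * p)) := by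
    rw [Finset.mul_sum]
    calc ∑ x ∈ univ \ K, Fintype.card Y * ∑ b : X → Y, ind (Suc Q (mx K a b) x) ≤
        ∑ x ∈ univ \ K, ∑ b : X → Y, ∑ y : Y, (ind (x ∈ Q y (mx K a b)) +
        ind (∃ x' ∈ Q y (mx K a b), mx K a b x' = y)) :=
          Finset.sum_le_sum fun x hx => h1 x (Finset.mem_sdiff.1 hx).2
      _ ≤ ∑ x : X, ∑ b : X → Y, ∑ y : Y, (ind (x ∈ Q y (mx K a b)) +
        ind (∃ x' ∈ Q y (mx K a b), mx K a b x' = y)) :=
          Finset.sum_le_sum_of_subset_of_nonneg (Finset.subset_univ _) (fun _ _ _ =>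
            Finset.sum_nonneg fun _ _ => Finset.sum_nonneg fun _ _ =>
              add_nonneg (ind_nonneg _) (ind_nonneg _))
      _ = ∑ b : X → Y, ∑ y : Y, (∑ x : X, ind (x ∈ Q y (mx K a b))) +
          Fintype.card X * ∑ y : Y, ∑ b : X → Y,
            ind (∃ x' ∈ Q y (mx K a b), mx K a b x' = y) := by
          rw [Finset.sum_comm]
          have h4 : ∀ b : X → Y, ∑ x : X, ∑ y : Y, (ind (x ∈ Q y (mx K a b)) +
              ind (∃ x' ∈ Q y (mx K a b), mx K a b x' = y)) =
              ∑ y : Y, (∑ x : X, ind (x ∈ Q y (mx K a b))) +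
              Fintype.card X * ∑ y : Y, ind (∃ x' ∈ Q y (mx K a b), mx K a b x' = y) := by
            intro b
            rw [Finset.sum_comm, Finset.mul_sum, ← Finset.sum_add_distrib]
            apply Finset.sum_congr rfl
            intro y _
            rw [Finset.sum_add_distrib, Finset.sum_const, nsmul_eq_mul, Finset.card_univ]
          rw [Finset.sum_congr rfl fun b _ => h4 b, Finset.sum_add_distrib, ← Finset.mul_sum,
            Finset.sum_comm (f := fun (b : X → Y) (y : Y) =>
              ind (∃ x' ∈ Q y (mx K a b), mx K a b x' = y))]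
      _ ≤ Fintype.card (X → Y) * (Fintype.card Y * p) +
          Fintype.card X * (Fintype.card (X → Y) * (K.card + p)) := by
          apply add_le_add
          · calc ∑ b : X → Y, ∑ y : Y, (∑ x : X, ind (x ∈ Q y (mx K a b))) ≤
                ∑ _b : X → Y, ∑ _y : Y, (p : ℝ) := by
                  apply Finset.sum_le_sum
                  intro b _
                  apply Finset.sum_le_sum
                  intro y _
                  rw [sum_ind_mem]
                  exact_mod_cast hp y _
              _ = _ := by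
                  simp only [Finset.sum_const, nsmul_eq_mul, Finset.card_univ]
          · exact mul_le_mul_of_nonneg_left (step_two Q p hp hQ hY K a) (by positivity)
      _ = Fintype.card Y * (Fintype.card (X → Y) * (K.card + 2 * p)) := by
          rw [hXYr]; ring
  have h3 := le_of_mul_le_mul_left h2 hY'
  rw [← Finset.sum_sdiff (Finset.subset_univ K)]
  have h5 : ∑ x ∈ K, ∑ b : X → Y, ind (Suc Q (mx K a b) x) ≤
      Fintype.card (X → Y) * K.card := by
    calc ∑ x ∈ K, ∑ b : X → Y, ind (Suc Q (mx K a b) x) ≤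
        ∑ _x ∈ K, ∑ _b : X → Y, (1 : ℝ) :=
          Finset.sum_le_sum fun x _ => Finset.sum_le_sum fun b _ => ind_le_one _
      _ = _ := by
          simp only [Finset.sum_const, nsmul_eq_mul, Finset.card_univ]
          ring
  linarith

include hp hQ in
theorem moments (hY : 0 < Fintype.card Y) (hXY : Fintype.card X = Fintype.card Y) (M : ℕ) :
    ∀ (j : ℕ) (K : Finset X) (a : X → Y), K.card + j * (p + 1) ≤ M →
    ∑ b : X → Y, (((univ.filter (fun x => Suc Q (mx K a b) x)).card : ℝ) /
      Fintype.card X) ^ j ≤ Fintype.card (X → Y) * (2 * M / Fintype.card X) ^ j := by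
  have hX' : (0 : ℝ) < Fintype.card X := by rw [hXY]; exact_mod_cast hY
  have hne : Nonempty Y := Fintype.card_pos_iff.1 hY
  have hXYp : (0 : ℝ) < Fintype.card (X → Y) := by
    exact_mod_cast Fintype.card_pos
  intro j
  induction j with
  | zero =>
    intro K a _
    simp
  | succ j ih =>
    intro K a hM
    set S : (X → Y) → ℝ := fun c => ((univ.filter (fun x => Suc Q c x)).card : ℝ) /
      Fintype.card X with hS
    have hS0 : ∀ c, 0 ≤ S c := fun c => by positivity
    have hSs : ∀ c, S c = (1 / Fintype.card X) * ∑ x : X, ind (Suc Q c x) := by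
      intro c
      rw [hS]
      unfold ind
      rw [Finset.sum_boole]
      ring
    have h1 : ∀ x : X, ∑ b : X → Y, ind (Suc Q (mx K a b) x) * S (mx K a b) ^ j ≤
        (2 * M / Fintype.card X) ^ j * ∑ b : X → Y, ind (Suc Q (mx K a b) x) := by
      intro x
      set κ : (X → Y) → Finset X := fun c => K ∪ insert x (Q (c x) c) with hκd
      have hK : ∀ c, K ⊆ κ c := fun c => Finset.subset_union_left
      have hxm : ∀ c, x ∈ κ c := fun c => by simp [hκd]
      have hQm : ∀ c, ∀ x' ∈ Q (c x) c, x' ∈ κ c := fun c x' h => by simp [hκd, h]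
      have hκ : ∀ c c', (∀ x ∈ κ c, c x = c' x) → κ c' = κ c := by
        intro c c' h
        simp only [hκd]
        rw [← h x (hxm c), hQ (c x) c c' fun x' hx' => h x' (hQm c x' hx')]
      have h2 := strong_markov K a κ hK hκ (fun c => ind (Suc Q c x) * S c ^ j)
      have h3 : ∀ b : X → Y, ∑ b' : X → Y,
          ind (Suc Q (mx (κ (mx K a b)) (mx K a b) b') x) *
            S (mx (κ (mx K a b)) (mx K a b) b') ^ j ≤
          ind (Suc Q (mx K a b) x) * (Fintype.card (X → Y) * (2 * M / Fintype.card X) ^ j) := by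
        intro b
        set c := mx K a b with hc
        have h4 : ∀ b' : X → Y, ind (Suc Q (mx (κ c) c b') x) = ind (Suc Q c x) := by
          intro b'
          apply ind_congr
          unfold Suc
          rw [mx_mem (hxm c), hQ (c x) c (mx (κ c) c b') fun x' hx' => by
            rw [mx_mem (hQm c x' hx')]]
          constructor
          · rintro ⟨x', hx', he⟩
            rw [mx_mem (hQm c x' hx')] at he
            exact ⟨x', hx', he⟩
          · rintro ⟨x', hx', he⟩
            refine ⟨x', hx', ?_⟩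
            rw [mx_mem (hQm c x' hx')]
            exact he
        rw [Finset.sum_congr rfl fun b' _ => by rw [h4 b'], ← Finset.mul_sum]
        apply mul_le_mul_of_nonneg_left _ (ind_nonneg _)
        apply ih
        have h5 : (κ c).card ≤ K.card + (p + 1) := by
          simp only [hκd]
          refine (Finset.card_union_le _ _).trans ?_
          have := Finset.card_insert_le x (Q (c x) c)
          have := hp (c x) c
          omega
        calc (κ c).card + j * (p + 1) ≤ K.card + (p + 1) + j * (p + 1) := by omega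
          _ = K.card + (j + 1) * (p + 1) := by ring
          _ ≤ M := hM
      have h6 := Finset.sum_le_sum (fun b (_ : b ∈ (univ : Finset (X → Y))) => h3 b)
      rw [h2, ← Finset.sum_mul] at h6
      have h7 : Fintype.card (X → Y) * ∑ b : X → Y, ind (Suc Q (mx K a b) x) * S (mx K a b) ^ j ≤
          Fintype.card (X → Y) * ((2 * M / Fintype.card X) ^ j *
            ∑ b : X → Y, ind (Suc Q (mx K a b) x)) := by
        refine h6.trans (le_of_eq ?_)
        ring
      exact le_of_mul_le_mul_left h7 hXYp
    have h8 : ∑ b : X → Y, S (mx K a b) ^ (j + 1) = (1 / Fintype.card X) * ∑ x : X,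
        ∑ b : X → Y, ind (Suc Q (mx K a b) x) * S (mx K a b) ^ j := by
      rw [Finset.sum_comm, Finset.mul_sum]
      apply Finset.sum_congr rfl
      intro b _
      rw [← Finset.sum_mul, pow_succ, ← mul_assoc, ← hSs (mx K a b)]
      ring
    have h9 := step_one Q p hp hQ hY hXY K a
    have hMr : ((K.card : ℝ) + p) ≤ M := by
      have : K.card + p ≤ M := by
        have h10 : (j + 1) * (p + 1) = j * (p + 1) + p + 1 := by ring
        omega
      exact_mod_cast this
    calc ∑ b : X → Y, S (mx K a b) ^ (j + 1) = (1 / Fintype.card X) * ∑ x : X,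
        ∑ b : X → Y, ind (Suc Q (mx K a b) x) * S (mx K a b) ^ j := h8
      _ ≤ (1 / Fintype.card X) * ∑ x : X, ((2 * M / Fintype.card X) ^ j *
            ∑ b : X → Y, ind (Suc Q (mx K a b) x)) :=
          mul_le_mul_of_nonneg_left (Finset.sum_le_sum fun x _ => h1 x) (by positivity)
      _ = (1 / Fintype.card X) * (2 * M / Fintype.card X) ^ j * ∑ x : X,
            ∑ b : X → Y, ind (Suc Q (mx K a b) x) := by
          rw [← Finset.mul_sum]; ring
      _ ≤ (1 / Fintype.card X) * (2 * M / Fintype.card X) ^ j *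
            (Fintype.card (X → Y) * (2 * (K.card + p))) :=
          mul_le_mul_of_nonneg_left h9 (by positivity)
      _ ≤ (1 / Fintype.card X) * (2 * M / Fintype.card X) ^ j *
            (Fintype.card (X → Y) * (2 * M)) := by
          gcongr
      _ = Fintype.card (X → Y) * (2 * M / Fintype.card X) ^ (j + 1) := by
          rw [pow_succ]; ring

end

theorem inv_bound {X Y : Type} [Fintype X] [Fintype Y]
    (hX : 0 < Fintype.card X) (hXY : Fintype.card X = Fintype.card Y)
    (Q : Y → (X → Y) → Finset X) (p : ℕ) (hp : ∀ y c, (Q y c).card ≤ p)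
    (hQ : ∀ y c c', (∀ x ∈ Q y c, c x = c' x) → Q y c' = Q y c) (t : ℕ) :
    ∑ c : X → Y, (((univ.filter (fun x => ∃ x' ∈ Q (c x) c, c x' = c x)).card : ℝ) /
      Fintype.card X) ^ t ≤
    Fintype.card (X → Y) * (2 * (t * (p + 1)) / Fintype.card X) ^ t := by
  have hne : Nonempty Y := Fintype.card_pos_iff.1 (hXY ▸ hX)
  have h := moments Q p hp hQ (hXY ▸ hX) hXY (t * (p + 1)) t ∅ (fun _ => hne.some) (by simp)
  have h2 : ∀ b : X → Y, mx ∅ (fun _ => hne.some) b = b := by
    intro b
    funext x
    exact mx_not (by simp)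
  simp only [h2] at h
  push_cast at h
  convert h using 7
  exact Iff.rfl

end Pool.Agent.H610R2.Owf
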