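import Pool.Agent.H610R2.Owf.Base
import Pool.Agent.H610R2.Owf.L
import Pool.Agent.H620R2.Gauge.Event
import Pool.Agent.H620R2.Gauge.Cover

/-!
# The event that an algorithm inverts the random function has doubly exponentially small probability
-/

namespace Pool.Agent.H610R2.Owf

open Pool.Agent.NPC Pool.Agent.H620R2.Gauge Finset H568R2

namespace Ev

/-! ### the questions of an algorithm -/

/-- the questions asked in at most `n` further rounds -/
def qrun (M : Alg) (A : Oracle) (x : List Bool) : ℕ → List Bool → Finset (List Bool)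
  | 0, _ => ∅
  | n + 1, a =>
    match M.D (pairBits x a) with
    | [] => ∅
    | true :: _ => ∅
    | false :: q => insert q (qrun M A x n (a ++ [A q]))

theorem card_qrun (M : Alg) (A : Oracle) (x : List Bool) :
    ∀ (n : ℕ) (a : List Bool), (qrun M A x n a).card ≤ n := by
  intro n
  induction n with
  | zero => intro a; simp [qrun]
  | succ n ih =>
    intro a
    rcases hq : M.D (pairBits x a) with _ | ⟨c, q⟩
    · simp [qrun, hq]
    · cases c with
      | true => simp [qrun, hq]
      | false =>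
        simp only [qrun, hq]
        exact (card_insert_le _ _).trans (Nat.succ_le_succ (ih _))

theorem qrun_local (M : Alg) (A A' : Oracle) (x : List Bool) :
    ∀ (n : ℕ) (a : List Bool), (∀ q ∈ qrun M A x n a, A' q = A q) →
      qrun M A' x n a = qrun M A x n a ∧ M.run A' x n a = M.run A x n a := by
  intro n
  induction n with
  | zero => intro a _; exact ⟨rfl, rfl⟩
  | succ n ih =>
    intro a h
    rcases hq : M.D (pairBits x a) with _ | ⟨c, q⟩
    · simp [qrun, Alg.run, hq]
    · cases c with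
      | true => simp [qrun, Alg.run, hq]
      | false =>
        simp only [qrun, hq] at h
        have hA : A' q = A q := h q (mem_insert_self _ _)
        obtain ⟨h1, h2⟩ := ih (a ++ [A q]) fun r hr => h r (mem_insert_of_mem hr)
        simp only [qrun, Alg.run, hq, hA, h1, h2]
        exact ⟨trivial, trivial⟩

/-! ### positions -/

/-- the string asked for the bit number `j` of the value at `x` -/
def pos {n : ℕ} (x : Fin n → Bool) (j : Fin n) : List Bool :=
  List.ofFn x ++ List.replicate (j + 1) true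

theorem length_pos {n : ℕ} (x : Fin n → Bool) (j : Fin n) :
    (pos x j).length = n + (j + 1) := by
  simp [pos]

/-- decoding of the first `n` bits -/
def dec (n : ℕ) (s : List Bool) : Fin n → Bool := fun i => s.getD i false

theorem dec_append {n : ℕ} (x : Fin n → Bool) (s : List Bool) :
    dec n (List.ofFn x ++ s) = x := by
  funext i
  unfold dec
  rw [List.getD_append _ _ _ _ (by simp)]
  simp

theorem dec_ofFn {n : ℕ} (x : Fin n → Bool) : dec n (List.ofFn x) = x := by
  have := dec_append x []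
  rwa [List.append_nil] at this

theorem ofFn_dec {n : ℕ} (z : List Bool) (hz : z.length = n) : List.ofFn (dec n z) = z := by
  apply List.ext_getElem
  · simp [hz]
  · intro i h1 h2
    rw [List.getElem_ofFn]
    unfold dec
    rw [List.getD_eq_getElem _ _ h2]

theorem pos_inj {n : ℕ} {x x' : Fin n → Bool} {j j' : Fin n} (h : pos x j = pos x' j') :
    x = x' ∧ j = j' := by
  have h1 := congrArg List.length h
  rw [length_pos, length_pos] at h1
  refine ⟨?_, Fin.ext (by omega)⟩
  have h2 := congrArg (dec n) h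
  unfold pos at h2
  rwa [dec_append, dec_append] at h2

theorem idx_pos_lt {n N : ℕ} (hN : 2 ^ (2 * n + 1) ≤ N + 1) (x : Fin n → Bool) (j : Fin n) :
    idx (pos x j) < N := by
  have h1 := idx_lt (pos x j)
  rw [length_pos] at h1
  have h2 : 2 ^ (n + (j + 1) + 1) ≤ 2 ^ (2 * n + 1) :=
    Nat.pow_le_pow_right (by norm_num) (by have := j.2; omega)
  omega

/-- the position of the bit number `j` of the value at `x` -/
def io {n N : ℕ} (hN : 2 ^ (2 * n + 1) ≤ N + 1) (p : (Fin n → Bool) × Fin n) : Fin N :=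
  ⟨idx (pos p.1 p.2), idx_pos_lt hN p.1 p.2⟩

theorem io_inj {n N : ℕ} (hN : 2 ^ (2 * n + 1) ≤ N + 1) : Function.Injective (io hN) := by
  rintro ⟨x, j⟩ ⟨x', j'⟩ h
  have h1 : idx (pos x j) = idx (pos x' j') := congrArg Fin.val h
  have h2 : pos x j = pos x' j' := by rw [← str_idx (pos x j), h1, str_idx]
  obtain ⟨rfl, rfl⟩ := pos_inj h2
  rfl

/-! ### resampling -/

/-- new values of the random function -/
noncomputable def comb {n N : ℕ} (hN : 2 ^ (2 * n + 1) ≤ N + 1) (a : Fin N → Bool)
    (c : (Fin n → Bool) → (Fin n → Bool)) : Fin N → Bool :=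
  Function.extend (io hN) (fun p => c p.1 p.2) a

theorem comb_io {n N : ℕ} (hN : 2 ^ (2 * n + 1) ≤ N + 1) (a : Fin N → Bool)
    (c : (Fin n → Bool) → (Fin n → Bool)) (p : (Fin n → Bool) × Fin n) :
    comb hN a c (io hN p) = c p.1 p.2 :=
  (io_inj hN).extend_apply _ _ p

theorem comb_of_not {n N : ℕ} (hN : 2 ^ (2 * n + 1) ≤ N + 1) (a : Fin N → Bool)
    (c : (Fin n → Bool) → (Fin n → Bool)) (e : Fin N) (he : ¬ ∃ p, io hN p = e) :
    comb hN a c e = a e :=
  Function.extend_apply' _ _ _ he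

/-- the resampling involution -/
noncomputable def swp {n N : ℕ} (hN : 2 ^ (2 * n + 1) ≤ N + 1)
    (z : (Fin N → Bool) × ((Fin n → Bool) → (Fin n → Bool))) :
    (Fin N → Bool) × ((Fin n → Bool) → (Fin n → Bool)) :=
  (comb hN z.1 z.2, fun x j => z.1 (io hN (x, j)))

theorem swp_swp {n N : ℕ} (hN : 2 ^ (2 * n + 1) ≤ N + 1) :
    Function.Involutive (swp (n := n) (N := N) hN) := by
  rintro ⟨a, c⟩
  refine Prod.ext ?_ ?_
  · funext e
    by_cases he : ∃ p, io hN p = e
    · obtain ⟨p, rfl⟩ := he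
      change comb hN (comb hN a c) _ (io hN p) = a (io hN p)
      rw [comb_io]
      rfl
    · change comb hN (comb hN a c) _ e = a e
      rw [comb_of_not hN _ _ e he, comb_of_not hN _ _ e he]
  · funext x j
    change comb hN a c (io hN (x, j)) = c x j
    rw [comb_io]

theorem sum_resample {n N : ℕ} (hN : 2 ^ (2 * n + 1) ≤ N + 1) (φ : (Fin N → Bool) → ℝ) :
    ∑ a : Fin N → Bool, ∑ c : (Fin n → Bool) → (Fin n → Bool), φ (comb hN a c) =
      (Fintype.card ((Fin n → Bool) → (Fin n → Bool)) : ℝ) * ∑ a : Fin N → Bool, φ a := by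
  have h1 : ∑ a : Fin N → Bool, ∑ c : (Fin n → Bool) → (Fin n → Bool), φ (comb hN a c) =
      ∑ z : (Fin N → Bool) × ((Fin n → Bool) → (Fin n → Bool)), φ (swp hN z).1 := by
    rw [Fintype.sum_prod_type]
    rfl
  have h2 : ∑ z : (Fin N → Bool) × ((Fin n → Bool) → (Fin n → Bool)), φ (swp hN z).1 =
      ∑ z : (Fin N → Bool) × ((Fin n → Bool) → (Fin n → Bool)), φ z.1 :=
    Equiv.sum_comp (swp_swp hN).toPerm (fun z => φ z.1)
  rw [h1, h2, Fintype.sum_prod_type]
  simp only [sum_const, card_univ, nsmul_eq_mul]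
  rw [mul_sum]

/-! ### the random function of the resampled oracle -/

theorem orc_comb_pos {n N : ℕ} (hN : 2 ^ (2 * n + 1) ≤ N + 1) (a : Fin N → Bool)
    (c : (Fin n → Bool) → (Fin n → Bool)) (x : Fin n → Bool) (j : Fin n) :
    orc N (comb hN a c) (pos x j) = c x j := by
  unfold orc
  rw [dif_pos (idx_pos_lt hN x j)]
  exact comb_io hN a c (x, j)

theorem Fr_ofFn {n N : ℕ} (hN : 2 ^ (2 * n + 1) ≤ N + 1) (a : Fin N → Bool)
    (c : (Fin n → Bool) → (Fin n → Bool)) (x : Fin n → Bool) :
    Fr (orc N (comb hN a c)) (List.ofFn x) = List.ofFn (c x) := by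
  unfold Fr
  apply List.ext_getElem
  · simp
  · intro i h1 h2
    rw [List.getElem_map, List.getElem_range, List.getElem_ofFn]
    have hi : i < n := by simpa using h2
    exact orc_comb_pos hN a c x ⟨i, hi⟩

theorem length_Fr (A : Oracle) (z : List Bool) : (Fr A z).length = z.length := by
  unfold Fr
  simp

/-- the questions -/
noncomputable def Qs (M : Alg) {n N : ℕ} (hN : 2 ^ (2 * n + 1) ≤ N + 1) (h : List Bool)
    (a : Fin N → Bool) (y : Fin n → Bool) (c : (Fin n → Bool) → (Fin n → Bool)) :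
    Finset (Fin n → Bool) := by
  classical
  exact univ.filter fun x' =>
    (∃ j : Fin n, pos x' j ∈ qrun M (orc N (comb hN a c)) (inI n (List.ofFn y) h)
      (M.p.eval (inI n (List.ofFn y) h).length) []) ∨
    M.out (orc N (comb hN a c)) (inI n (List.ofFn y) h) = some (List.ofFn x')

theorem mem_Qs (M : Alg) {n N : ℕ} (hN : 2 ^ (2 * n + 1) ≤ N + 1) (h : List Bool)
    (a : Fin N → Bool) (y : Fin n → Bool) (c : (Fin n → Bool) → (Fin n → Bool))
    (x' : Fin n → Bool) : x' ∈ Qs M hN h a y c ↔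
      (∃ j : Fin n, pos x' j ∈ qrun M (orc N (comb hN a c)) (inI n (List.ofFn y) h)
        (M.p.eval (inI n (List.ofFn y) h).length) []) ∨
      M.out (orc N (comb hN a c)) (inI n (List.ofFn y) h) = some (List.ofFn x') := by
  classical
  simp [Qs]

theorem card_Qs (M : Alg) {n N : ℕ} (hN : 2 ^ (2 * n + 1) ≤ N + 1) (h : List Bool)
    (a : Fin N → Bool) (y : Fin n → Bool) (c : (Fin n → Bool) → (Fin n → Bool)) :
    (Qs M hN h a y c).card ≤ M.p.eval (inI n (List.ofFn y) h).length + 1 := by
  classical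
  set R := qrun M (orc N (comb hN a c)) (inI n (List.ofFn y) h)
      (M.p.eval (inI n (List.ofFn y) h).length) [] with hR
  have hsub : Qs M hN h a y c ⊆ insert
      (dec n ((M.out (orc N (comb hN a c)) (inI n (List.ofFn y) h)).getD [])) (R.image (dec n)) := by
    intro x' hx'
    rw [mem_Qs] at hx'
    rcases hx' with ⟨j, hj⟩ | hz
    · apply mem_insert_of_mem
      rw [mem_image]
      exact ⟨pos x' j, hj, dec_append x' _⟩
    · rw [hz, Option.getD_some, dec_ofFn]
      exact mem_insert_self _ _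
  refine (card_le_card hsub).trans ((card_insert_le _ _).trans ?_)
  exact Nat.succ_le_succ (card_image_le.trans (card_qrun _ _ _ _ _))

theorem Qs_local (M : Alg) {n N : ℕ} (hN : 2 ^ (2 * n + 1) ≤ N + 1) (h : List Bool)
    (a : Fin N → Bool) (y : Fin n → Bool) (c c' : (Fin n → Bool) → (Fin n → Bool))
    (hc : ∀ x ∈ Qs M hN h a y c, c x = c' x) : Qs M hN h a y c' = Qs M hN h a y c := by
  have key : ∀ q ∈ qrun M (orc N (comb hN a c)) (inI n (List.ofFn y) h)
      (M.p.eval (inI n (List.ofFn y) h).length) [],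
      orc N (comb hN a c') q = orc N (comb hN a c) q := by
    intro q hq
    unfold orc
    split_ifs with hi
    · by_cases he : ∃ p, io hN p = (⟨idx q, hi⟩ : Fin N)
      · obtain ⟨⟨x', j⟩, hp⟩ := he
        have h1 : idx (pos x' j) = idx q := congrArg Fin.val hp
        have h2 : pos x' j = q := by rw [← str_idx (pos x' j), h1, str_idx]
        have h3 : x' ∈ Qs M hN h a y c := by
          rw [mem_Qs]
          left
          exact ⟨j, by rw [h2]; exact hq⟩
        rw [← hp, comb_io, comb_io]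
        change c' x' j = c x' j
        rw [hc x' h3]
      · rw [comb_of_not hN _ _ _ he, comb_of_not hN _ _ _ he]
    · rfl
  obtain ⟨h1, h2⟩ := qrun_local M _ _ _ _ _ key
  ext x'
  rw [mem_Qs, mem_Qs, h1]
  unfold Alg.out
  rw [h2]

theorem length_inI (n : ℕ) (y h : List Bool) (hy : y.length = n) :
    (inI n y h).length = 6 * n + 3 + h.length := by
  unfold inI
  rw [length_pairBits, length_pairBits, List.length_replicate, hy]
  ring

open Classical in
/-- the number of the inputs where the algorithm succeeds -/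
noncomputable def Sh (M : Alg) (n N : ℕ) (h : List Bool) (a : Fin N → Bool) : ℕ :=
  (univ.filter (fun x : Fin n → Bool =>
    ∃ z, M.out (orc N a) (inI n (Fr (orc N a) (List.ofFn x)) h) = some z ∧
      Fr (orc N a) z = Fr (orc N a) (List.ofFn x))).card

open Classical in
theorem Sh_le (M : Alg) {n N : ℕ} (hN : 2 ^ (2 * n + 1) ≤ N + 1) (h : List Bool)
    (a : Fin N → Bool) (c : (Fin n → Bool) → (Fin n → Bool)) :
    Sh M n N h (comb hN a c) ≤
      (univ.filter (fun x : Fin n → Bool => ∃ x' ∈ Qs M hN h a (c x) c, c x' = c x)).card := by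
  unfold Sh
  apply card_le_card
  intro x hx
  rw [mem_filter] at hx ⊢
  refine ⟨mem_univ _, ?_⟩
  obtain ⟨-, z, hz, hF⟩ := hx
  rw [Fr_ofFn] at hz hF
  have hlen : z.length = n := by
    have := congrArg List.length hF
    rw [length_Fr, List.length_ofFn] at this
    exact this
  have hz' := ofFn_dec z hlen
  refine ⟨dec n z, ?_, ?_⟩
  · rw [mem_Qs]
    right
    rw [hz, hz']
  · rw [← hz', Fr_ofFn] at hF
    exact List.ofFn_injective hF

open Classical in
/-- the statement of the inversion bound (task L) -/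
def InvBound : Prop :=
  ∀ {X Y : Type} [Fintype X] [Fintype Y]
    (_ : 0 < Fintype.card X) (_ : Fintype.card X = Fintype.card Y)
    (Q : Y → (X → Y) → Finset X) (p : ℕ) (_ : ∀ y c, (Q y c).card ≤ p)
    (_ : ∀ y c c', (∀ x ∈ Q y c, c x = c' x) → Q y c' = Q y c) (t : ℕ),
    ∑ c : X → Y, (((univ.filter (fun x => ∃ x' ∈ Q (c x) c, c x' = c x)).card : ℝ) /
      Fintype.card X) ^ t ≤
    Fintype.card (X → Y) * (2 * (t * (p + 1)) / Fintype.card X) ^ t

theorem moment (hinv : InvBound) (M : Alg) (m n N t : ℕ) (hN : 2 ^ (2 * n + 1) ≤ N + 1)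
    (h : List Bool) (hh : h.length ≤ m) :
    Ex unif (fun a : Fin N → Bool => ((Sh M n N h a : ℝ) / 2 ^ n) ^ t) ≤
      (2 * (t * (M.p.eval (lenI n m) + 2)) / 2 ^ n) ^ t := by
  classical
  set B : ℝ := (2 * (t * (M.p.eval (lenI n m) + 2)) / 2 ^ n) ^ t with hB
  have hcardX : (Fintype.card (Fin n → Bool) : ℝ) = 2 ^ n := by simp
  have h1 : ∀ a : Fin N → Bool, ∑ c : (Fin n → Bool) → (Fin n → Bool),
      ((Sh M n N h (comb hN a c) : ℝ) / 2 ^ n) ^ t ≤
      (Fintype.card ((Fin n → Bool) → (Fin n → Bool)) : ℝ) * B := by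
    intro a
    have h2 := hinv (X := Fin n → Bool) (Y := Fin n → Bool) Fintype.card_pos rfl
      (Qs M hN h a) (M.p.eval (lenI n m) + 1) (fun y c => ?_) (Qs_local M hN h a) t
    · rw [hcardX] at h2
      refine le_trans ?_ (h2.trans (le_of_eq ?_))
      · convert sum_le_sum (s := (univ : Finset ((Fin n → Bool) → (Fin n → Bool))))
          (f := fun c => ((Sh M n N h (comb hN a c) : ℝ) / 2 ^ n) ^ t)
          (g := fun c => (((univ.filter (fun x : Fin n → Bool =>
            ∃ x' ∈ Qs M hN h a (c x) c, c x' = c x)).card : ℝ) / 2 ^ n) ^ t) ?_ using 1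
        · congr!
        · intro c _
          have h4 := Sh_le M hN h a c
          have h5 : (Sh M n N h (comb hN a c) : ℝ) ≤
            ((univ.filter (fun x : Fin n → Bool =>
              ∃ x' ∈ Qs M hN h a (c x) c, c x' = c x)).card : ℝ) := by exact_mod_cast h4
          gcongr
      · have e1 : (2 * (t * (((M.p.eval (lenI n m) + 1 : ℕ) : ℝ) + 1)) / 2 ^ n) ^ t = B := by
          rw [hB]
          push_cast
          ring_nf
        rw [e1]
        congr!
    · refine (card_Qs M hN h a y c).trans ?_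
      rw [length_inI n _ h (by simp)]
      apply Nat.succ_le_succ
      apply eval_mono
      unfold lenI
      omega
  have h6 := sum_resample hN (fun a : Fin N → Bool => ((Sh M n N h a : ℝ) / 2 ^ n) ^ t)
  have h7 : (Fintype.card ((Fin n → Bool) → (Fin n → Bool)) : ℝ) *
      ∑ a : Fin N → Bool, ((Sh M n N h a : ℝ) / 2 ^ n) ^ t ≤
      (Fintype.card ((Fin n → Bool) → (Fin n → Bool)) : ℝ) * (2 ^ N * B) := by
    rw [← h6]
    refine (sum_le_sum fun a _ => h1 a).trans ?_
    rw [sum_const, card_univ, nsmul_eq_mul]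
    have : (Fintype.card (Fin N → Bool) : ℝ) = 2 ^ N := by simp
    rw [this]
    apply le_of_eq
    ring
  have hpos : (0 : ℝ) < (Fintype.card ((Fin n → Bool) → (Fin n → Bool)) : ℝ) := by
    exact_mod_cast Fintype.card_pos
  have h8 := le_of_mul_le_mul_left h7 hpos
  unfold Ex unif
  simp only [Finset.prod_const, Finset.card_univ, Fintype.card_fin]
  rw [← Finset.mul_sum]
  calc (1 / 2 : ℝ) ^ N * ∑ a : Fin N → Bool, ((Sh M n N h a : ℝ) / 2 ^ n) ^ t
      ≤ (1 / 2 : ℝ) ^ N * (2 ^ N * B) := by gcongr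
    _ = B := by
      rw [← mul_assoc, ← mul_pow]
      norm_num

end Ev

open Ev

open Classical in
theorem evI_bound_of (hinv : InvBound) (M : Alg) (m q n N t : ℕ)
    (hN : 2 ^ (2 * n + 1) ≤ N + 1) :
    Ex unif (fun a : Fin N → Bool => if EvI M m q n N a then (1 : ℝ) else 0) ≤
      2 ^ (m + 1) * (2 * (t * (M.p.eval (lenI n m) + 2)) * q / 2 ^ n) ^ t := by
  set H : Finset (List Bool) := (Finset.range (m + 1)).biUnion strsOf with hH
  have hlen : ∀ h ∈ H, h.length ≤ m := by
    intro h hh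
    rw [hH, mem_biUnion] at hh
    obtain ⟨c, hc, hc'⟩ := hh
    unfold strsOf at hc'
    rw [mem_image] at hc'
    obtain ⟨j, -, rfl⟩ := hc'
    rw [length_bitsOf]
    rw [mem_range] at hc
    omega
  have hcardH : (H.card : ℝ) ≤ 2 ^ (m + 1) := by
    have h1 : H.card ≤ ∑ c ∈ Finset.range (m + 1), 2 ^ c :=
      card_biUnion_le.trans (sum_le_sum fun c _ => card_strsOf c)
    have h2 : ∑ c ∈ Finset.range (m + 1), 2 ^ c ≤ 2 ^ (m + 1) := by
      rw [Nat.geomSum_eq (le_refl 2)]
      simp
    exact_mod_cast h1.trans h2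
  have hpt : ∀ a : Fin N → Bool, (if EvI M m q n N a then (1 : ℝ) else 0) ≤
      ∑ h ∈ H, (q : ℝ) ^ t * ((Sh M n N h a : ℝ) / 2 ^ n) ^ t := by
    intro a
    split_ifs with hE
    · obtain ⟨h, hh, hq⟩ := hE
      have hmem : h ∈ H := by
        rw [hH, mem_biUnion]
        exact ⟨h.length, mem_range.2 (by omega), mem_strsOf h⟩
      refine le_trans ?_ (single_le_sum (f := fun h => (q : ℝ) ^ t *
        ((Sh M n N h a : ℝ) / 2 ^ n) ^ t) (fun h _ => by positivity) hmem)
      change (1 : ℝ) ≤ (q : ℝ) ^ t * ((Sh M n N h a : ℝ) / 2 ^ n) ^ t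
      rw [← mul_pow]
      apply one_le_pow₀
      rw [← mul_div_assoc, le_div_iff₀ (by positivity), one_mul]
      have hq' : 2 ^ n ≤ q * Sh M n N h a := hq
      exact_mod_cast hq'
    · exact sum_nonneg fun h _ => by positivity
  have hmono : Ex unif (fun a : Fin N → Bool => if EvI M m q n N a then (1 : ℝ) else 0) ≤
      Ex unif (fun a : Fin N → Bool =>
        ∑ h ∈ H, (q : ℝ) ^ t * ((Sh M n N h a : ℝ) / 2 ^ n) ^ t) :=
    Ex_mono (fun _ => by unfold unif; norm_num) hpt
  refine hmono.trans ?_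
  have hsum : Ex unif (fun a : Fin N → Bool =>
        ∑ h ∈ H, (q : ℝ) ^ t * ((Sh M n N h a : ℝ) / 2 ^ n) ^ t) =
      ∑ h ∈ H, (q : ℝ) ^ t * Ex unif (fun a : Fin N → Bool =>
        ((Sh M n N h a : ℝ) / 2 ^ n) ^ t) := by
    unfold Ex
    simp only [mul_sum]
    rw [sum_comm]
    refine sum_congr rfl fun h _ => sum_congr rfl fun a _ => by ring
  rw [hsum]
  have hb : ∀ h ∈ H, (q : ℝ) ^ t * Ex unif (fun a : Fin N → Bool =>
        ((Sh M n N h a : ℝ) / 2 ^ n) ^ t) ≤
      (2 * (t * (M.p.eval (lenI n m) + 2)) * q / 2 ^ n) ^ t := by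
    intro h hh
    have h1 := moment hinv M m n N t hN h (hlen h hh)
    calc (q : ℝ) ^ t * Ex unif (fun a : Fin N → Bool => ((Sh M n N h a : ℝ) / 2 ^ n) ^ t)
        ≤ (q : ℝ) ^ t * (2 * (t * (M.p.eval (lenI n m) + 2)) / 2 ^ n) ^ t := by gcongr
      _ = _ := by
        rw [← mul_pow]
        congr 1
        ring
  refine (sum_le_sum hb).trans ?_
  rw [sum_const, nsmul_eq_mul]
  gcongr

open Classical in
theorem evI_bound (M : Alg) (m q n N t : ℕ) (hN : 2 ^ (2 * n + 1) ≤ N + 1) :
    Ex unif (fun a : Fin N → Bool => if EvI M m q n N a then (1 : ℝ) else 0) ≤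
      2 ^ (m + 1) * (2 * (t * (M.p.eval (lenI n m) + 2)) * q / 2 ^ n) ^ t :=
  evI_bound_of (fun hX hXY Q p hp hQ t => inv_bound hX hXY Q p hp hQ t) M m q n N t hN

end Pool.Agent.H610R2.Owf
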