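import Pool.Agent.H610R2.Owf.Base
import Pool.Agent.H620R2.Gauge.A2
import Pool.Agent.H620R2.Gauge.U1

/-!
# The random function is easy; from probabilistic algorithms to advice
-/

namespace Pool.Agent.H610R2.Owf

open Pool.Agent.NPC Pool.Agent.H620R2.Gauge Finset

theorem fr_fp (A : Oracle) : IsFP A (Fr A) := by
  have h1 : UPoly (fun x : List Bool => x.length) := UPoly.length Poly.id
  have h2 : UPoly (fun p : List Bool × ℕ => p.1.length) := h1.comp (Poly.fst Poly.id)
  have h3 : UPoly (fun p : List Bool × ℕ => min (p.2 + 1) p.1.length) :=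
    UPoly.of_le (NPC.Poly.min (NPC.Poly.succ (Poly.snd Poly.id)) h2.toPoly) h2
      (fun p => min_le_right _ _)
  have h4 : Poly (fun p : List Bool × ℕ => List.replicate (min (p.2 + 1) p.1.length) true) :=
    (NPC.Poly.map (F := fun _ _ => true) h3 (NPC.Poly.const true)).congr fun x => by simp
  have hQ : Poly (fun x : List Bool => (List.range x.length).map
      (fun i => x ++ List.replicate (min (i + 1) x.length) true)) :=
    NPC.Poly.map (F := fun (x : List Bool) (i : ℕ) =>
      x ++ List.replicate (min (i + 1) x.length) true) h1.range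
      (NPC.Poly.append (Poly.fst Poly.id) h4)
  have hH : Poly (fun p : List Bool × List Bool => p.2) := Poly.snd Poly.id
  have h := IsFP.tt (A := A) hQ hH
  convert h using 1
  funext x
  unfold Fr
  simp only [List.map_map]
  refine List.map_congr_left fun i hi => ?_
  have hi' := List.mem_range.1 hi
  simp only [Function.comp_apply]
  rw [min_eq_left (by omega)]

open Classical in
theorem card_prod_eq {X W : Type} [Fintype X] [Fintype W] (P : X × W → Prop) :
    Nat.card {q : X × W // P q} = ∑ w : W, Nat.card {x : X // P (x, w)} := by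
  rw [Nat.card_eq_fintype_card, Fintype.card_subtype, Finset.card_filter,
    Fintype.sum_prod_type_right]
  refine Finset.sum_congr rfl fun w _ => ?_
  rw [Nat.card_eq_fintype_card, Fintype.card_subtype, Finset.card_filter]

theorem exists_adv (F G : List Bool → List Bool) (n m : ℕ) :
    ∃ w : Fin m → Bool, invPr F G n m ≤ advPr F G n (List.ofFn w) := by
  set c : (Fin m → Bool) → ℝ := fun w => (Nat.card {x : Fin n → Bool //
    F (G (pairBits (pairBits (List.replicate n true) (F (List.ofFn x))) (List.ofFn w))) =
      F (List.ofFn x)} : ℝ) with hc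
  have h1 : invPr F G n m = (∑ w, c w) / 2 ^ (n + m) := by
    unfold invPr
    rw [card_prod_eq]
    push_cast
    rfl
  have h2 : ∀ w, advPr F G n (List.ofFn w) = c w / 2 ^ n := fun w => rfl
  obtain ⟨w, -, hw⟩ := Finset.exists_le_of_sum_le (s := (Finset.univ : Finset (Fin m → Bool)))
    (f := fun _ => (∑ w, c w) / 2 ^ m) (g := c) ⟨fun _ => true, Finset.mem_univ _⟩ (by
      rw [Finset.sum_const, nsmul_eq_mul, Finset.card_univ]
      simp only [Fintype.card_fun, Fintype.card_bool, Fintype.card_fin]
      push_cast
      rw [mul_div_cancel₀]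
      positivity)
  refine ⟨w, ?_⟩
  rw [h1, h2, pow_add, mul_comm ((2 : ℝ) ^ n), ← div_div]
  exact div_le_div_of_nonneg_right hw (by positivity)

theorem invOn_of_prob {A : Oracle} {F G : List Bool → List Bool} (hG : IsFP A G)
    (m q : Polynomial ℕ) :
    InvOn A F {n | 1 ≤ invPr F G n (m.eval n) * q.eval n} := by
  choose w hw using fun n => exists_adv F G n (m.eval n)
  refine ⟨G, hG, fun n => List.ofFn (w n), m, q, fun n => by simp, fun n hn => ?_⟩
  exact le_trans hn (mul_le_mul_of_nonneg_right (hw n) (by positivity))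

theorem invPr_of_det {A : Oracle} {F : List Bool → List Bool} {T : Set ℕ}
    (h : DetInvOn A F T) :
    ∃ G, IsFP A G ∧ ∀ n ∈ T, ∀ m : ℕ, invPr F G n m = 1 := by
  obtain ⟨G, hG, hT⟩ := h
  have h2 : Poly (fun z : List Bool => (unpair z).1) := Poly.fst poly_unpair
  refine ⟨fun z => G (unpair z).1, hG.precomp h2, fun n hn m => ?_⟩
  unfold invPr
  have h3 : ∀ q : (Fin n → Bool) × (Fin m → Bool),
      F (G (unpair (pairBits (pairBits (List.replicate n true) (F (List.ofFn q.1)))
        (List.ofFn q.2))).1) = F (List.ofFn q.1) := by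
    intro q
    rw [unpair_pairBits]
    exact hT n hn _ (by simp)
  rw [Nat.card_congr (Equiv.subtypeUnivEquiv h3), Nat.card_prod]
  simp only [Nat.card_eq_fintype_card, Fintype.card_fun, Fintype.card_bool, Fintype.card_fin]
  rw [pow_add]
  push_cast
  exact div_self (by positivity)

theorem DetInvOn.invOn {A : Oracle} {F : List Bool → List Bool} {T : Set ℕ}
    (h : DetInvOn A F T) : InvOn A F T := by
  obtain ⟨G, hG, hT⟩ := h
  have h2 : Poly (fun z : List Bool => (unpair z).1) := Poly.fst poly_unpair
  refine ⟨fun z => G (unpair z).1, hG.precomp h2, fun _ => [], 0, 1, fun n => by simp,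
    fun n hn => ?_⟩
  unfold advPr
  have h3 : ∀ x : Fin n → Bool,
      F (G (unpair (pairBits (pairBits (List.replicate n true) (F (List.ofFn x))) [])).1) =
        F (List.ofFn x) := by
    intro q
    rw [unpair_pairBits]
    exact hT n hn _ (by simp)
  rw [Nat.card_congr (Equiv.subtypeUnivEquiv h3)]
  simp only [Nat.card_eq_fintype_card, Fintype.card_fun, Fintype.card_bool, Fintype.card_fin]
  push_cast
  rw [div_self (by positivity)]
  simp

end Pool.Agent.H610R2.Owf
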