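import Pool.Agent.H610R2.Owf.Base
import Pool.Agent.H620R2.Gauge2.Trans
import Pool.Agent.H620R2.GaugeR.R1

/-!
# Search with a decision oracle (helper602)
-/

namespace Pool.Agent.H610R2.Owf

open Pool.Agent.NPC Pool.Agent.H620R2.Gauge Pool.Agent.H622R2

namespace I

/-- the question string for the state `s` and the padding length `k` -/
def zz (k : ℕ) (s : List Bool) : List Bool := pairBits s (List.replicate k true)

/-- the language of the extendible prefixes -/
def Lg (F : List Bool → List Bool) : Set (List Bool) :=
  {z | ∃ x : List Bool, x.length = (unpair (unpair (unpair z).1).2).1.length ∧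
    (unpair (unpair z).1).1 = x.take (unpair (unpair z).1).1.length ∧
    F x = (unpair (unpair (unpair z).1).2).2}

theorem length_pairBits (x a : List Bool) :
    (pairBits x a).length = 2 * x.length + a.length + 1 := A2.length_pairBits x a

theorem mem_Lg (F : List Bool → List Bool) (k n : ℕ) (pr y : List Bool) :
    zz k (pairBits pr (pairBits (List.replicate n true) y)) ∈ Lg F ↔
      ∃ x : List Bool, x.length = n ∧ pr = x.take pr.length ∧ F x = y := by
  unfold Lg zz
  simp only [Set.mem_ofPred_eq, unpair_pairBits, List.length_replicate]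

/-- the verifier -/
def ver (F : List Bool → List Bool) (v : List Bool) : List Bool :=
  if ((unpair v).1.length = (unpair (unpair (unpair (unpair v).2).1).2).1.length ∧
    (unpair (unpair (unpair v).2).1).1 =
      (unpair v).1.take (unpair (unpair (unpair v).2).1).1.length) ∧
    F (unpair v).1 = (unpair (unpair (unpair (unpair v).2).1).2).2 then [true] else []

theorem ver_fp {A : Oracle} {F : List Bool → List Bool} (hF : IsFP A F) : IsFP A (ver F) := by
  have h1 : Poly (fun v : List Bool => (unpair v).1) := Poly.fst poly_unpair
  have h2 : Poly (fun v : List Bool => (unpair v).2) := Poly.snd poly_unpair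
  have hs : Poly (fun v : List Bool => (unpair (unpair v).2).1) := h1.comp h2
  have hpr : Poly (fun v : List Bool => (unpair (unpair (unpair v).2).1).1) := h1.comp hs
  have hu : Poly (fun v : List Bool => (unpair (unpair (unpair v).2).1).2) := h2.comp hs
  have hn : Poly (fun v : List Bool => (unpair (unpair (unpair (unpair v).2).1).2).1) :=
    h1.comp hu
  have hy : Poly (fun v : List Bool => (unpair (unpair (unpair (unpair v).2).1).2).2) :=
    h2.comp hu
  have hFF := hF.precomp h1
  have hψ : Poly (fun p : List Bool × List Bool × List Bool =>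
      if ((unpair p.1).1.length = (unpair (unpair (unpair (unpair p.1).2).1).2).1.length ∧
      (unpair (unpair (unpair p.1).2).1).1 =
        (unpair p.1).1.take (unpair (unpair (unpair p.1).2).1).1.length) ∧
      p.2.1 = (unpair (unpair (unpair (unpair p.1).2).1).2).2 then [true] else []) := by
    have hp1 : Poly (fun p : List Bool × List Bool × List Bool => p.1) := Poly.fst Poly.id
    refine Poly.ite (Poly.decide_and (Poly.decide_and ?_ ?_) ?_) (NPC.Poly.const _)
      (NPC.Poly.const _)
    · exact Poly.decide_eq (Poly.length (h1.comp hp1)) (Poly.length (hn.comp hp1))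
    · exact Poly.decide_eq (hpr.comp hp1)
        (R1.poly_take (h1.comp hp1) (UPoly.length (hpr.comp hp1)))
    · exact Poly.decide_eq (Poly.fst (Poly.snd Poly.id)) (hy.comp hp1)
  exact IsFP.seq (φ := fun p => p.1) hFF hFF (Poly.fst Poly.id) hψ

theorem Lg_isNP {A : Oracle} {F : List Bool → List Bool} (hF : IsFP A F) : IsNP A (Lg F) := by
  have h1 : Poly (fun v : List Bool => (unpair v).1) := Poly.fst poly_unpair
  have h2 : Poly (fun v : List Bool => (unpair v).2) := Poly.snd poly_unpair
  have hn : Poly (fun z : List Bool => (unpair (unpair (unpair z).1).2).1) :=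
    h1.comp (h2.comp h1)
  obtain ⟨q, hq⟩ := hn.sz_le
  refine ⟨ver F, q.comp (Polynomial.C 4 * Polynomial.X + Polynomial.C 1), ver_fp hF,
    fun z => ?_⟩
  have hv : ∀ w : List Bool, ver F (pairBits w z) = [true] ↔
      ((w.length = (unpair (unpair (unpair z).1).2).1.length ∧
        (unpair (unpair z).1).1 = w.take (unpair (unpair z).1).1.length) ∧
        F w = (unpair (unpair (unpair z).1).2).2) := by
    intro w
    unfold ver
    rw [unpair_pairBits]
    split_ifs with h
    · exact ⟨fun _ => h, fun _ => rfl⟩
    · exact ⟨fun hh => by simp at hh, fun hh => absurd hh h⟩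
  constructor
  · rintro ⟨x, hx1, hx2, hx3⟩
    refine ⟨x, ?_, (hv x).2 ⟨⟨hx1, hx2⟩, hx3⟩⟩
    rw [hx1]
    have h3 := length_lt_sz (unpair (unpair (unpair z).1).2).1
    exact A2.sz_eval_le (h3.le.trans (hq z))
  · rintro ⟨w, _, hw⟩
    obtain ⟨⟨k1, k2⟩, k3⟩ := (hv w).1 hw
    exact ⟨w, k1, k2, k3⟩

/-- one step of the search -/
def stp (A : Oracle) (g : List Bool → List Bool) (P : Polynomial ℕ) (s : List Bool) :
    List Bool :=
  if (unpair s).1.length < (unpair (unpair s).2).1.length then
    pairBits ((unpair s).1 ++
      [!(A (g (zz (P.eval (unpair (unpair s).2).1.length)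
        (pairBits ((unpair s).1 ++ [false]) (unpair s).2))))]) (unpair s).2
  else s

theorem stp_fp {A : Oracle} {g : List Bool → List Bool} (hg : Poly g) (P : Polynomial ℕ) :
    IsFP A (stp A g P) := by
  have h1 : Poly (fun v : List Bool => (unpair v).1) := Poly.fst poly_unpair
  have h2 : Poly (fun v : List Bool => (unpair v).2) := Poly.snd poly_unpair
  have hn : Poly (fun v : List Bool => (unpair (unpair v).2).1) := h1.comp h2
  have hrep : Poly (fun v : List Bool =>
      List.replicate (P.eval (unpair (unpair v).2).1.length) true) := by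
    refine (NPC.Poly.map (F := fun (_ : List Bool) (_ : Unit) => true)
      ((UPoly.length hn).eval P) (NPC.Poly.const true)).congr ?_
    intro a
    simp
  have hz : Poly (fun v : List Bool => zz (P.eval (unpair (unpair v).2).1.length)
        (pairBits ((unpair v).1 ++ [false]) (unpair v).2)) :=
    poly_pairBits (poly_pairBits (Poly.append h1 (NPC.Poly.const _)) h2) hrep
  have hQ : Poly (fun v : List Bool => [g (zz (P.eval (unpair (unpair v).2).1.length)
        (pairBits ((unpair v).1 ++ [false]) (unpair v).2))]) :=
    Poly.cons (hg.comp hz) (NPC.Poly.const [])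
  have hH : Poly (fun p : List Bool × List Bool =>
      if (unpair p.1).1.length < (unpair (unpair p.1).2).1.length then
        pairBits ((unpair p.1).1 ++ [!(decide (p.2.head? = some true))]) (unpair p.1).2
      else p.1) := by
    have hp1 : Poly (fun p : List Bool × List Bool => p.1) := Poly.fst Poly.id
    refine Poly.ite (Poly.decide_lt (Poly.length (h1.comp hp1)) (Poly.length (hn.comp hp1))) ?_
      hp1
    refine poly_pairBits (Poly.append (h1.comp hp1) (Poly.cons (Poly.not ?_)
      (NPC.Poly.const []))) (h2.comp hp1)
    exact Poly.decide_eq (Poly.head? (Poly.snd Poly.id)) (NPC.Poly.const _)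
  have key := IsFP.tt (A := A) hQ hH
  have heq : (fun x : List Bool => (fun p : List Bool × List Bool =>
      if (unpair p.1).1.length < (unpair (unpair p.1).2).1.length then
        pairBits ((unpair p.1).1 ++ [!(decide (p.2.head? = some true))]) (unpair p.1).2
      else p.1) (x, ([g (zz (P.eval (unpair (unpair x).2).1.length)
        (pairBits ((unpair x).1 ++ [false]) (unpair x).2))]).map A)) = stp A g P := by
    funext x
    unfold stp
    simp only [List.map_cons, List.map_nil, List.head?_cons, Option.some.injEq]
    split_ifs
    · congr 3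
      cases A (g (zz (P.eval (unpair (unpair x).2).1.length)
        (pairBits ((unpair x).1 ++ [false]) (unpair x).2))) <;> rfl
    · rfl
  rw [← heq]
  exact key

/-- the state stays a pair with the second component unchanged -/
theorem stp_shape (A : Oracle) (g : List Bool → List Bool) (P : Polynomial ℕ) (u : List Bool) :
    ∀ i : ℕ, ∃ pr : List Bool, (stp A g P)^[i] (pairBits [] u) = pairBits pr u ∧
      pr.length ≤ i := by
  intro i
  induction i with
  | zero => exact ⟨[], rfl, le_rfl⟩
  | succ i ih =>
    obtain ⟨pr, h1, h2⟩ := ih
    rw [Function.iterate_succ_apply', h1]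
    unfold stp
    rw [unpair_pairBits]
    simp only
    split_ifs with h
    · refine ⟨_, rfl, ?_⟩
      simp
      omega
    · exact ⟨pr, rfl, by omega⟩

/-- the inverter -/
def inv (A : Oracle) (g : List Bool → List Bool) (P : Polynomial ℕ) (u : List Bool) :
    List Bool :=
  (unpair ((stp A g P)^[u.length] (pairBits [] u))).1

theorem inv_fp {A : Oracle} {g : List Bool → List Bool} (hg : Poly g) (P : Polynomial ℕ) :
    IsFP A (inv A g P) := by
  have h1 : Poly (fun v : List Bool => (unpair v).1) := Poly.fst poly_unpair
  have hg0 : Poly (fun u : List Bool => pairBits [] u) :=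
    poly_pairBits (NPC.Poly.const []) Poly.id
  have hl := IsFP.loop (stp_fp (A := A) hg P) hg0 Polynomial.X
    (Polynomial.C 3 * Polynomial.X + Polynomial.C 1) (by
      intro x i hi
      obtain ⟨pr, k1, k2⟩ := stp_shape A g P x i
      rw [k1, length_pairBits]
      simp only [Polynomial.eval_X] at hi
      simp only [Polynomial.eval_add, Polynomial.eval_mul, Polynomial.eval_C, Polynomial.eval_X]
      omega)
  have h3 := IsFP.comp (IsFP.of_poly (A := A) h1) hl
  simp only [Polynomial.eval_X] at h3
  exact h3

end I

open I in
theorem exists_search {A : Oracle} {F : List Bool → List Bool} (hF : IsFP A F) :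
    ∃ (L : Set (List Bool)) (P : Polynomial ℕ), IsPSPACE A L ∧ (∀ n, n < P.eval n) ∧
      ∀ g : List Bool → List Bool, Poly g →
        DetInvOn A F {n | ∀ z : List Bool, P.eval n ≤ z.length → z.length ≤ 9 * P.eval n →
          (z ∈ L ↔ A (g z) = true)} := by
  obtain ⟨b, hb⟩ : ∃ b : Polynomial ℕ, ∀ x, (F x).length ≤ b.eval x.length := by
    obtain ⟨M, hM⟩ := hF
    obtain ⟨b, hb⟩ := A2.out_bound M
    exact ⟨b, fun x => hb A x (F x) (hM x)⟩
  refine ⟨Lg F, Polynomial.C 5 * Polynomial.X + b + Polynomial.C 3, (Lg_isNP hF).isPSPACE, ?_, ?_⟩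
  · intro n
    simp only [Polynomial.eval_add, Polynomial.eval_mul, Polynomial.eval_C, Polynomial.eval_X]
    omega
  intro g hg
  obtain ⟨P, hP⟩ : ∃ P : Polynomial ℕ, P = Polynomial.C 5 * Polynomial.X + b + Polynomial.C 3 :=
    ⟨_, rfl⟩
  rw [← hP]
  have hPe : ∀ n, P.eval n = 5 * n + b.eval n + 3 := by
    intro n
    rw [hP]
    simp only [Polynomial.eval_add, Polynomial.eval_mul, Polynomial.eval_C, Polynomial.eval_X]
  refine ⟨inv A g P, inv_fp hg P, ?_⟩
  intro n hn x hx
  rw [Set.mem_ofPred_eq] at hn
  obtain ⟨u, hu⟩ : ∃ u, u = pairBits (List.replicate n true) (F x) := ⟨_, rfl⟩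
  have hFx : (F x).length ≤ b.eval n := by rw [← hx]; exact hb x
  have hulen : u.length = 2 * n + (F x).length + 1 := by
    rw [hu, I.length_pairBits, List.length_replicate]
  have hu1 : (unpair u).1 = List.replicate n true := by rw [hu, unpair_pairBits]
  have inv1 : ∀ i ≤ n, ∃ pr : List Bool, (stp A g P)^[i] (pairBits [] u) = pairBits pr u ∧
      pr.length = i ∧ ∃ x' : List Bool, x'.length = n ∧ pr = x'.take pr.length ∧ F x' = F x := by
    intro i
    induction i with
    | zero => intro _; exact ⟨[], rfl, rfl, x, hx, by simp, rfl⟩
    | succ i ih =>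
      intro hi
      obtain ⟨pr, h1, h2, x', h3, h4, h5⟩ := ih (by omega)
      rw [Function.iterate_succ_apply', h1]
      unfold stp
      rw [unpair_pairBits]
      simp only
      rw [hu1, List.length_replicate, if_pos (by omega)]
      refine ⟨_, rfl, by simp [h2], ?_⟩
      have hq : zz (P.eval n) (pairBits (pr ++ [false]) u) ∈ Lg F ↔
          A (g (zz (P.eval n) (pairBits (pr ++ [false]) u))) = true := by
        have hlen : (zz (P.eval n) (pairBits (pr ++ [false]) u)).length =
            2 * (2 * (i + 1) + (2 * n + (F x).length + 1) + 1) + P.eval n + 1 := by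
          unfold zz
          rw [I.length_pairBits, I.length_pairBits, List.length_replicate, hulen,
            List.length_append, h2]
          rfl
        have hPn := hPe n
        apply hn
        · omega
        · omega
      rw [hu, mem_Lg] at hq
      rw [← hu] at hq
      -- the next bit of the witness
      have hlt : pr.length < x'.length := by omega
      have hnext : x'.take (pr.length + 1) = pr ++ [x'[pr.length]] := by
        rw [List.take_succ_eq_append_getElem hlt, ← h4]
      cases hA : A (g (zz (P.eval n) (pairBits (pr ++ [false]) u))) with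
      | true =>
        rw [hA] at hq
        obtain ⟨x'', k1, k2, k3⟩ := hq.2 rfl
        exact ⟨x'', k1, k2, k3⟩
      | false =>
        rw [hA] at hq
        refine ⟨x', h3, ?_, h5⟩
        have hbit : x'[pr.length] = true := by
          cases hxb : x'[pr.length] with
          | true => rfl
          | false =>
            exfalso
            have : false = true := hq.1 ⟨x', h3, by
              rw [List.length_append, List.length_singleton, hnext, hxb], h5⟩
            exact Bool.noConfusion this
        rw [List.length_append, List.length_singleton, hnext, hbit]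
        rfl
  obtain ⟨pr, h1, h2, x', h3, h4, h5⟩ := inv1 n le_rfl
  have hstop : ∀ j : ℕ, (stp A g P)^[n + j] (pairBits [] u) = pairBits pr u := by
    intro j
    induction j with
    | zero => exact h1
    | succ j ih =>
      rw [← add_assoc, Function.iterate_succ_apply', ih]
      unfold stp
      rw [unpair_pairBits]
      simp only
      rw [hu1, List.length_replicate, if_neg (by omega)]
  have hfin : inv A g P u = pr := by
    unfold inv
    obtain ⟨j, hj⟩ : ∃ j, u.length = n + j := ⟨u.length - n, by omega⟩
    rw [hj, hstop, unpair_pairBits]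
  rw [← hu, hfin]
  have hpx : pr = x' := by
    rw [h4]
    exact List.take_of_length_le (by omega)
  rw [hpx, h5]

end Pool.Agent.H610R2.Owf
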