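import Pool.Agent.H610R2.Owf.Base
import Pool.Agent.H620R2.Gauge2.V5
import Pool.Agent.H620R2.Gauge2.V6
import Pool.Agent.H620R2.Gauge2.Null
import Pool.Agent.H620R2.GaugeR.R1
import Pool.Agent.H620R2.GaugeR.R8
import Pool.Agent.H620R2.Gauge.NonNull

/-! Stubs. Never import this file in a finished file. -/

namespace Pool.Agent.H610R2.Owf

open Pool.Agent.NPC Pool.Agent.H620R2.Gauge Finset H568R2

/-! ### Task L: file `Owf/L.lean` (Mathlib only) -/

open Classical in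
theorem inv_bound {X Y : Type} [Fintype X] [Fintype Y]
    (hX : 0 < Fintype.card X) (hXY : Fintype.card X = Fintype.card Y)
    (Q : Y → (X → Y) → Finset X) (p : ℕ) (hp : ∀ y c, (Q y c).card ≤ p)
    (hQ : ∀ y c c', (∀ x ∈ Q y c, c x = c' x) → Q y c' = Q y c) (t : ℕ) :
    ∑ c : X → Y, (((univ.filter (fun x => ∃ x' ∈ Q (c x) c, c x' = c x)).card : ℝ) /
      Fintype.card X) ^ t ≤
    Fintype.card (X → Y) * (2 * (t * (p + 1)) / Fintype.card X) ^ t := by sorry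

/-! ### Task E: file `Owf/E.lean` (uses L) -/

open Classical in
theorem evI_bound (M : Alg) (m q n N t : ℕ) (hN : 2 ^ (2 * n + 1) ≤ N + 1) :
    Ex unif (fun a : Fin N → Bool => if EvI M m q n N a then (1 : ℝ) else 0) ≤
      2 ^ (m + 1) * (2 * (t * (M.p.eval (lenI n m) + 2)) * q / 2 ^ n) ^ t := by sorry

/-! ### Task A: file `Owf/A.lean` (may import Gauge2.V6) -/

theorem asym_freq (Q : Polynomial ℕ) (f : ℕ → ℝ) (hf : Cond f) :
    ∃ᶠ n : ℕ in Filter.atTop, ∃ N : ℕ, 2 ^ (Q.eval n + 1) ≤ N ∧ f N ≤ 2 ^ Real.sqrt n := by sorry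

theorem asym_ev (Q : Polynomial ℕ) (f : ℕ → ℝ) (hf : CondS f) :
    ∀ᶠ n : ℕ in Filter.atTop, ∃ N : ℕ, 2 ^ (Q.eval n + 1) ≤ N ∧ f N ≤ 2 ^ Real.sqrt n := by sorry

theorem asym_bd (P : Polynomial ℕ) : ∀ᶠ n : ℕ in Filter.atTop, ∃ t : ℕ, ∀ g : ℝ,
    g ≤ 2 ^ Real.sqrt n →
    (2 : ℝ) ^ P.eval n * (t * P.eval n / 2 ^ n) ^ t * 2 ^ g ≤ (1 / 2) ^ n := by sorry

/-! ### Task F: file `Owf/F.lean` -/

theorem fr_fp (A : Oracle) : IsFP A (Fr A) := by sorry

/-! ### Task V: file `Owf/V.lean` (from probabilistic algorithms to advice) -/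

theorem invOn_of_prob {A : Oracle} {F G : List Bool → List Bool} (hG : IsFP A G)
    (m q : Polynomial ℕ) :
    InvOn A F {n | 1 ≤ invPr F G n (m.eval n) * q.eval n} := by sorry

theorem invPr_of_det {A : Oracle} {F : List Bool → List Bool} {T : Set ℕ}
    (h : DetInvOn A F T) :
    ∃ G, IsFP A G ∧ ∀ n ∈ T, ∀ m : ℕ, invPr F G n m = 1 := by sorry

theorem DetInvOn.invOn {A : Oracle} {F : List Bool → List Bool} {T : Set ℕ}
    (h : DetInvOn A F T) : InvOn A F T := by sorry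

/-! ### Task I: file `Owf/I.lean` (search with a decision oracle) -/

theorem exists_search {A : Oracle} {F : List Bool → List Bool} (hF : IsFP A F) :
    ∃ (L : Set (List Bool)) (P : Polynomial ℕ), IsPSPACE A L ∧ (∀ n, n < P.eval n) ∧
      ∀ g : List Bool → List Bool, Poly g →
        DetInvOn A F {n | ∀ z : List Bool, P.eval n ≤ z.length → z.length ≤ 9 * P.eval n →
          (z ∈ L ↔ A (g z) = true)} := by sorry

/-! ### Task C: file `Owf/C.lean` (see Gauge/C.lean) -/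

theorem exists_coding_io (K : ℕ) : ∃ R : ℕ → Polynomial ℕ,
    (∀ e n, (n + e + 1) ^ K ≤ (R e).eval n) ∧ ∀ W : ℕ → ℕ → Prop, ∃ Φ : Oracle → Oracle,
      (∀ B y, (∀ e x, W e x.length → y ≠ code R e x) → Φ B y = B y) ∧
      ∀ B L, IsPSPACE (Φ B) L → ∃ e, ∀ x : List Bool, W e x.length →
        (x ∈ L ↔ Φ B (code R e x) = true) := by sorry

/-! ### Task W: file `Owf/W.lean` (see Gauge/Q.lean) -/

open Classical in
theorem exists_window (f : ℕ → ℝ) (hf : ¬ CondS f) : ∃ (K : ℕ) (W : ℕ → ℕ → Prop),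
    (∀ (e : ℕ) (P : Polynomial ℕ), (∀ n, n < P.eval n) → ∃ᶠ n : ℕ in Filter.atTop,
      ∀ l, P.eval n ≤ l → l ≤ 9 * P.eval n → W e l) ∧
    ∀ R : ℕ → Polynomial ℕ, (∀ e n, (n + e + 1) ^ K ≤ (R e).eval n) → ∃ c : ℝ, ∀ N : ℕ,
      (((Finset.range N).filter (fun i => ∃ e x, W e x.length ∧ str i = code R e x)).card : ℝ) ≤
        f N + c := by sorry

end Pool.Agent.H610R2.Owf
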