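import Pool.Agent.H610R2.Owf.Base
import Pool.Agent.H620R2.Gauge.Q

/-!
# Task W: the choice of the windows and the number of code strings
-/

namespace Pool.Agent.H610R2.Owf

open Pool.Agent.NPC Pool.Agent.H620R2.Gauge Finset H568R2

theorem W_eval_mono (P : Polynomial ℕ) {a b : ℕ} (h : a ≤ b) : P.eval a ≤ P.eval b := by
  rw [Polynomial.eval_eq_sum_range, Polynomial.eval_eq_sum_range]
  exact Finset.sum_le_sum fun i _ => Nat.mul_le_mul_left _ (Nat.pow_le_pow_left h _)

theorem W_eval_two (P : Polynomial ℕ) (k : ℕ) : P.eval (2 * k) ≤ 2 ^ P.natDegree * P.eval k := by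
  rw [Polynomial.eval_eq_sum_range, Polynomial.eval_eq_sum_range, Finset.mul_sum]
  refine Finset.sum_le_sum fun i hi => ?_
  rw [Finset.mem_range] at hi
  have h1 : 2 ^ i ≤ 2 ^ P.natDegree := Nat.pow_le_pow_right (by norm_num) (by omega)
  calc P.coeff i * (2 * k) ^ i = 2 ^ i * (P.coeff i * k ^ i) := by rw [mul_pow]; ring
    _ ≤ 2 ^ P.natDegree * (P.coeff i * k ^ i) := Nat.mul_le_mul_right _ h1

/-- the levels available for the windows -/
def WGood (f : ℕ → ℝ) (K l : ℕ) : Prop :=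
  ∃ N : ℕ, N ≤ 2 ^ (l ^ K) ∧ ∀ N' ≥ N, (2 : ℝ) ^ (l ^ 2 + l + 2) ≤ f N'

theorem W_good (f : ℕ → ℝ) (hf : ¬ CondS f) :
    ∃ K : ℕ, 1 ≤ K ∧ ∃ᶠ l : ℕ in Filter.atTop, WGood f K l := by
  unfold CondS at hf
  push Not at hf
  obtain ⟨ε, hε, hN⟩ := hf
  set K := ⌈4 / ε⌉₊ + 1 with hK
  have hKε : 4 ≤ (K : ℝ) * ε := by
    have h1 : 4 / ε ≤ ⌈4 / ε⌉₊ := Nat.le_ceil _
    have h2 : 4 / ε ≤ (K : ℝ) := by rw [hK]; push_cast; linarith
    rwa [div_le_iff₀ hε] at h2
  refine ⟨K, by omega, ?_⟩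
  rw [Filter.frequently_atTop]
  intro a
  set m := max a 4 with hm
  obtain ⟨N, hNm, hNf⟩ := (Filter.frequently_atTop.1 hN) (2 ^ (m ^ K) + 1)
  have hex : ∃ l, N ≤ 2 ^ (l ^ K) := by
    refine ⟨N, (Nat.lt_two_pow_self).le.trans (Nat.pow_le_pow_right (by norm_num) ?_)⟩
    exact Nat.le_self_pow (by omega) N
  classical
  set l := Nat.find hex with hl
  have hl1 : N ≤ 2 ^ (l ^ K) := Nat.find_spec hex
  have hlm : m < l := by
    by_contra hlt
    rw [not_lt] at hlt
    have : 2 ^ (l ^ K) ≤ 2 ^ (m ^ K) :=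
      Nat.pow_le_pow_right (by norm_num) (Nat.pow_le_pow_left hlt K)
    omega
  have hl2 : ¬ N ≤ 2 ^ ((l - 1) ^ K) := Nat.find_min hex (by omega)
  refine ⟨l, by omega, N, hl1, fun N' hN' => ?_⟩
  have h3 := hNf N' hN'
  refine le_trans ?_ h3.le
  have hNpos : (0 : ℝ) < N := by
    have : 0 < N := lt_of_lt_of_le (Nat.succ_pos _) hNm
    exact_mod_cast this
  have h4 : (((l - 1 : ℕ) : ℝ)) ^ K ≤ Real.logb 2 N := by
    rw [Real.le_logb_iff_rpow_le (by norm_num) hNpos]
    have h5 : 2 ^ ((l - 1) ^ K) ≤ N := by omega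
    have h6 : ((2 ^ ((l - 1) ^ K) : ℕ) : ℝ) ≤ N := by exact_mod_cast h5
    refine le_trans (le_of_eq ?_) h6
    push_cast
    rw [← Real.rpow_natCast 2]
    push_cast
    rfl
  have hl4 : (4 : ℝ) ≤ ((l - 1 : ℕ) : ℝ) := by
    have : 4 ≤ l - 1 := by omega
    exact_mod_cast this
  have h7 : (((l - 1 : ℕ) : ℝ)) ^ (4 : ℕ) ≤ (Real.logb 2 N) ^ ε := by
    calc (((l - 1 : ℕ) : ℝ)) ^ (4 : ℕ) = (((l - 1 : ℕ) : ℝ)) ^ (4 : ℝ) := by
          rw [← Real.rpow_natCast]; norm_num
      _ ≤ (((l - 1 : ℕ) : ℝ)) ^ ((K : ℝ) * ε) :=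
          Real.rpow_le_rpow_of_exponent_le (by linarith) hKε
      _ = ((((l - 1 : ℕ) : ℝ)) ^ K) ^ ε := by
          rw [Real.rpow_mul (by linarith), Real.rpow_natCast]
      _ ≤ (Real.logb 2 N) ^ ε := Real.rpow_le_rpow (by positivity) h4 hε.le
  rw [← Real.rpow_natCast]
  refine Real.rpow_le_rpow_of_exponent_le (by norm_num) (le_trans ?_ h7)
  obtain ⟨k, hk⟩ : ∃ k, l = k + 1 := ⟨l - 1, by omega⟩
  have hk4 : 4 ≤ k := by omega
  rw [hk]
  have h8 : (k + 1) ^ 2 + (k + 1) + 2 ≤ k ^ 4 := by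
    have h9 : 16 * k ^ 2 ≤ k ^ 4 := by
      have : 4 * 4 ≤ k * k := Nat.mul_le_mul hk4 hk4
      nlinarith [Nat.zero_le (k ^ 2)]
    nlinarith
  have h10 : (((k + 1) ^ 2 + (k + 1) + 2 : ℕ) : ℝ) ≤ ((k ^ 4 : ℕ) : ℝ) := by exact_mod_cast h8
  simpa using h10

open Classical in
theorem exists_window (f : ℕ → ℝ) (hf : ¬ CondS f) : ∃ (K : ℕ) (W : ℕ → ℕ → Prop),
    (∀ (e : ℕ) (P : Polynomial ℕ), (∀ n, n < P.eval n) → ∃ᶠ n : ℕ in Filter.atTop,
      ∀ l, P.eval n ≤ l → l ≤ 9 * P.eval n → W e l) ∧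
    ∀ R : ℕ → Polynomial ℕ, (∀ e n, (n + e + 1) ^ K ≤ (R e).eval n) → ∃ c : ℝ, ∀ N : ℕ,
      (((Finset.range N).filter (fun i => ∃ e x, W e x.length ∧ str i = code R e x)).card : ℝ) ≤
        f N + c := by
  obtain ⟨K, hK, hfreq⟩ := W_good f hf
  obtain ⟨φ, hφ, hgood⟩ := Filter.extraction_of_frequently_atTop hfreq
  choose M hM1 hM2 using hgood
  refine ⟨K, fun e l => ∃ i, e ≤ i ∧ φ i ≤ l ∧ l ≤ φ i ^ 2, ?_, ?_⟩
  · intro e P hP
    rw [Filter.frequently_atTop]
    intro a
    set i := e + P.eval (a + 1) + 9 * 2 ^ P.natDegree + 1 with hi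
    have hφi : i ≤ φ i := hφ.id_le i
    have hex : ∃ n, φ i ≤ P.eval n := ⟨φ i, (hP _).le⟩
    set n := Nat.find hex with hn
    have hn1 : φ i ≤ P.eval n := Nat.find_spec hex
    have hna : a + 1 < n := by
      by_contra hlt
      rw [not_lt] at hlt
      have := W_eval_mono P hlt
      omega
    have hn2 : ¬ φ i ≤ P.eval (n - 1) := Nat.find_min hex (by omega)
    refine ⟨n, by omega, fun l hl1 hl2 => ⟨i, by omega, by omega, hl2.trans ?_⟩⟩
    have h1 : P.eval n ≤ P.eval (2 * (n - 1)) := W_eval_mono P (by omega)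
    have h2 := W_eval_two P (n - 1)
    have h3 : 2 ^ P.natDegree * P.eval (n - 1) ≤ 2 ^ P.natDegree * φ i :=
      Nat.mul_le_mul_left _ (by omega)
    calc 9 * P.eval n ≤ 9 * (2 ^ P.natDegree * φ i) := by omega
      _ = (9 * 2 ^ P.natDegree) * φ i := by ring
      _ ≤ φ i * φ i := Nat.mul_le_mul_right _ (by omega)
      _ = φ i ^ 2 := by ring
  · intro R hR
    refine ⟨∑ N ∈ Finset.range (M 0), |f N|, fun N => ?_⟩
    have hc0 : 0 ≤ ∑ N ∈ Finset.range (M 0), |f N| := Finset.sum_nonneg fun _ _ => abs_nonneg _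
    -- the relevant windows
    set J : Set ℕ := {j | M j ≤ N} with hJ
    have hJb : BddAbove J := by
      refine ⟨⌊f N⌋₊, fun j hj => ?_⟩
      have h1 := hM2 j N hj
      apply Nat.le_floor
      have h2 : j ≤ φ j := hφ.id_le j
      have h3 : j < 2 ^ (φ j ^ 2 + φ j + 2) :=
        lt_of_le_of_lt (by omega : j ≤ φ j ^ 2 + φ j + 2) Nat.lt_two_pow_self
      have h4 : (j : ℝ) ≤ (2 : ℝ) ^ (φ j ^ 2 + φ j + 2) := by exact_mod_cast h3.le
      linarith
    -- every counted string comes from a relevant window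
    have hrel : ∀ i < N, ∀ e x, (∃ j, e ≤ j ∧ φ j ≤ x.length ∧ x.length ≤ φ j ^ 2) →
        str i = code R e x → ∃ j ∈ J, e ≤ j ∧ x.length ≤ φ j ^ 2 := by
      rintro i hiN e x ⟨j, hej, h1, h2⟩ hcode
      refine ⟨j, ?_, hej, h2⟩
      have h3 := length_code R e x
      have h4 := hR e x.length
      have h5 := le_idx (code R e x)
      rw [← hcode, idx_str, hcode] at h5
      have h6 : φ j ^ K ≤ (x.length + e + 1) ^ K := Nat.pow_le_pow_left (by omega) K
      have h7 : 2 ^ (φ j ^ K) ≤ 2 ^ (code R e x).length :=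
        Nat.pow_le_pow_right (by norm_num) (by omega)
      have h8 := hM1 j
      show M j ≤ N
      omega
    rcases Set.eq_empty_or_nonempty J with hJe | hJne
    · have hemp : ((Finset.range N).filter (fun i => ∃ e x,
          (∃ j, e ≤ j ∧ φ j ≤ x.length ∧ x.length ≤ φ j ^ 2) ∧ str i = code R e x)) = ∅ := by
        rw [Finset.filter_eq_empty_iff]
        rintro i hi ⟨e, x, h1, h2⟩
        obtain ⟨j, hj, -⟩ := hrel i (Finset.mem_range.1 hi) e x h1 h2
        rw [hJe] at hj
        exact hj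
      rw [hemp, Finset.card_empty]
      have hN0 : N < M 0 := by
        by_contra hge
        rw [not_lt] at hge
        have : (0 : ℕ) ∈ J := hge
        rw [hJe] at this
        exact this
      have h1 : |f N| ≤ ∑ N ∈ Finset.range (M 0), |f N| :=
        Finset.single_le_sum (f := fun N => |f N|) (fun _ _ => abs_nonneg _)
          (Finset.mem_range.2 hN0)
      have h2 := neg_abs_le (f N)
      push_cast
      linarith
    · set I := sSup J with hI
      have hIJ : I ∈ J := Nat.sSup_mem hJne hJb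
      have hmax : ∀ j ∈ J, j ≤ I := fun j hj => le_csSup hJb hj
      have hrel2 : ∀ i < N, ∀ e x, (∃ j, e ≤ j ∧ φ j ≤ x.length ∧ x.length ≤ φ j ^ 2) →
          str i = code R e x → e ≤ I ∧ x.length ≤ φ I ^ 2 := by
        intro i hi e x h1 h2
        obtain ⟨j, hj, hej, hx⟩ := hrel i hi e x h1 h2
        have hjI := hmax j hj
        refine ⟨hej.trans hjI, hx.trans (Nat.pow_le_pow_left (hφ.monotone hjI) 2)⟩
      have hcard : ((Finset.range N).filter (fun i => ∃ e x,
          (∃ j, e ≤ j ∧ φ j ≤ x.length ∧ x.length ≤ φ j ^ 2) ∧ str i = code R e x)).card ≤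
          2 ^ (φ I ^ 2 + φ I + 2) := by
        let P : ℕ → Prop := fun i => ∃ e x,
          (∃ j, e ≤ j ∧ φ j ≤ x.length ∧ x.length ≤ φ j ^ 2) ∧ str i = code R e x
        let w : ℕ → List Bool := fun i =>
          if h : P i then List.replicate h.choose true ++ false :: h.choose_spec.choose else []
        have hw : ∀ i, (h : P i) → w i =
            List.replicate h.choose true ++ false :: h.choose_spec.choose := fun i h => dif_pos h
        have hcode : ∀ i, (h : P i) → str i = code R h.choose h.choose_spec.choose :=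
          fun i h => h.choose_spec.choose_spec.2
        rw [← Finset.card_range (2 ^ (φ I ^ 2 + φ I + 2))]
        apply Finset.card_le_card_of_injOn (fun i => idx (w i))
        · intro i hi
          rw [Finset.mem_coe, Finset.mem_filter, Finset.mem_range] at hi
          have hP : P i := hi.2
          rw [Finset.mem_coe, Finset.mem_range]
          obtain ⟨h1, h2⟩ := hrel2 i hi.1 _ _ hP.choose_spec.choose_spec.1 (hcode i hP)
          have h3 : I ≤ φ I := hφ.id_le I
          have h7 : (w i).length ≤ φ I ^ 2 + φ I + 1 := by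
            rw [hw i hP]
            simp only [List.length_append, List.length_replicate, List.length_cons]
            omega
          have h8 := idx_lt (w i)
          have h9 : 2 ^ ((w i).length + 1) ≤ 2 ^ (φ I ^ 2 + φ I + 2) :=
            Nat.pow_le_pow_right (by norm_num) (by omega)
          show idx (w i) < 2 ^ (φ I ^ 2 + φ I + 2)
          omega
        · intro i hi j hj hij
          rw [Finset.mem_coe, Finset.mem_filter] at hi hj
          have hPi : P i := hi.2
          have hPj : P j := hj.2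
          have h1 : w i = w j := by
            have := congrArg str hij
            simpa [str_idx] using this
          rw [hw i hPi, hw j hPj] at h1
          obtain ⟨h2, h3⟩ := marker_inj h1
          apply str_injective
          have h4 : ∀ (e e' : ℕ) (x x' : List Bool), e = e' → x = x' →
              code R e x = code R e' x' := by
            intro e e' x x' he hx
            rw [he, hx]
          rw [hcode i hPi, hcode j hPj]
          exact h4 _ _ _ _ h2 h3
      have h1 := hM2 I N hIJ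
      have h2 : (((Finset.range N).filter (fun i => ∃ e x,
          (∃ j, e ≤ j ∧ φ j ≤ x.length ∧ x.length ≤ φ j ^ 2) ∧ str i = code R e x)).card : ℝ) ≤
          (2 : ℝ) ^ (φ I ^ 2 + φ I + 2) := by exact_mod_cast hcard
      linarith

end Pool.Agent.H610R2.Owf
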